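import Pool.Agent.Helper90_F5H.I6A
import Pool.Agent.Helper10_F5H.NP

/-!
MP_f5cbfa_nt, squad F5H, row C_I6: everything together.
-/

set_option autoImplicit false

open MeasureTheory Complex ComplexConjugate
open scoped ENNReal

namespace Pool.Agent.F5H.BC.H90

open Pool.Agent.BTL Pool.Agent.F5S Pool.Agent.F5H Pool.Agent.F5H.BC Pool.Agent.F5.H58

theorem i6_ (hN : NearPsi) : I6Stmt := by
  intro hCHA hCHE hCOV hSCL hPER hCVR hKV hKR hMN0 hLPX hFRM hI1 hI2 hI3 hMG hI4 hI5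
  obtain ⟨C1, hC1, hN⟩ := hN
  obtain ⟨cC, hcC, CC, hCC, hCOV⟩ := hCOV
  obtain ⟨QK, hQK, hKV⟩ := hKV
  obtain ⟨QR, hQR, hKR⟩ := hKR
  obtain ⟨QM, hQM, hMN⟩ := id hMN0
  obtain ⟨C4, hC4, hI4⟩ := hI4 hMG hI3
  obtain ⟨Q5, hQ5, hI5⟩ := hI5 hCHA hMN0 hLPX
  refine ⟨2000, by norm_num, 1000 + C1 + CC + C4 + Q5 + QK + QR + QM, by linarith, ?_⟩
  intro T Q hQ hl hQT V s h k k0 hRg hSz hk1 hk2 hk3
  have q1000 : 1000 ≤ Q := by linarith
  have qC1 : C1 ≤ Q := by linarith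
  have qCC : CC ≤ Q := by linarith
  have qC4 : C4 ≤ Q := by linarith
  have qQ5 : Q5 ≤ Q := by linarith
  have qQK : QK ≤ Q := by linarith
  have qQR : QR ≤ Q := by linarith
  have qQM : QM ≤ Q := by linarith
  have hQ1 : 1 ≤ Q := by linarith
  have hQ0 : 0 < Q := by linarith
  rcases Set.eq_empty_or_nonempty (Src T Q V s h k) with he | ⟨a0, ha0⟩
  · rw [he]; simp
  obtain ⟨r2', r12, r01, r3, r4⟩ := id hRg
  have hV0 : 1 ≤ V 0 := by linarith
  -- the size of `k`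
  have hone : 1 ≤ Q ^ 35 * V 0 := one_le_mul_of_one_le_of_one_le (one_le_pow₀ hQ1) hV0
  obtain ⟨hT1, kp0, kp1, kr0, kr1, -⟩ := hMN T Q V 1 qQM hl hQT hRg le_rfl hone
  have q100 : 1 ≤ Q ^ 100 := one_le_pow₀ hQ1
  have kap1 : kap T (V 0) ≤ 1 := by
    have : 1 * kap T (V 0) ≤ Q ^ 100 * kap T (V 0) := mul_le_mul_of_nonneg_right q100 kp0.le
    linarith
  have kpr1 : kpr T (V 0) ≤ 1 := kr1.trans kap1
  have hT0 : 0 < T := by linarith
  have hKk : ‖k‖ ≤ Q ^ 30 * V 0 := by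
    obtain ⟨b1, b2, b3, b4, b5⟩ := ha0
    refine hKV T Q qQK hl hQT a0.1 V s a0.2 h k b1 hRg hSz b4
      (BD_mono hT0.le ?_ ?_ (fun l => le_rfl) b5)
    · exact mul_le_of_le_one_right hQ0.le kap1
    · exact mul_le_of_le_one_right hQ0.le kpr1
  have hKk35 : ‖k‖ ≤ Q ^ 35 * V 0 :=
    hKk.trans (mul_le_mul_of_nonneg_right (pow_le_pow_right₀ hQ1 (by norm_num)) (by linarith))
  have hk0V : k0 ≤ Q ^ 35 * V 0 := hk2.trans hKk35
  obtain ⟨_, _, _, _, _, _, _, _, _, n10, _, n12⟩ := hMN T Q V k0 qQM hl hQT hRg hk1 hk0V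
  have hr := hKR T Q V k0 qQR hl hQT hRg hk1 hk0V
  -- the local estimate
  set K := CC * Q ^ cC with hKdef
  have hK0 : 0 ≤ K := by positivity
  have hC10 : 0 < C1 := by linarith
  have loc : ∀ a ∈ Src T Q V s h k,
      volume (Src T Q V s h k ∩ {a' | ‖a'.1 - a.1‖ ≤ 1 / (C1 * Q ^ 54)}) ≤
      ∑ j ∈ Finset.range ⌈3 * Q⌉₊, ENNReal.ofReal (3 * K ^ 2 * Q ^ 400 * gain T V k0 (dl k0 j)) *
        volume (Tgt T (Q ^ 1000) V k0 (dl k0 j) s h k) := by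
    intro a ha
    have X := hI5 T Q V k0 s h k qQ5 hl hQT hRg hSz hk1 hk2 hk3 hKk35 a ha
    have sub : Src T Q V s h k ∩ {a' | ‖a'.1 - a.1‖ ≤ 1 / (C1 * Q ^ 54)} ⊆
        ⋃ j ∈ Finset.range ⌈3 * Q⌉₊, Psi a.1 '' Sj T Q V k0 s h k a.1 j := by
      rintro a' ⟨ha', hnear⟩
      obtain ⟨w, w1, w2, w3, w4⟩ := hN a.1 a'.1 Q a'.2 q1000 ha.1 hnear
        (abs_le.2 ⟨ha'.2.1.1.le, ha'.2.1.2⟩)
      have hw : Psi a.1 w ∈ Src T Q V s h k := by rw [w1]; exact ha'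
      have w2' : |w.1 - 1| ≤ 1 / 8 := by
        refine w2.trans (one_div_le_one_div_of_le (by norm_num) ?_)
        calc (8 : ℝ) ≤ Q ^ 1 := by rw [pow_one]; linarith
          _ ≤ Q ^ 50 := pow_le_pow_right₀ hQ1 (by norm_num)
      obtain ⟨j, hj, hj2⟩ := hI1 hCHA hFRM T Q V k0 s h k a.1 X n12 w w2' w3 w4 hw
      exact Set.mem_biUnion (Finset.mem_coe.2 hj) ⟨w, hj2, w1⟩
    refine (measure_mono sub).trans ((measure_biUnion_finset_le _ _).trans
      (Finset.sum_le_sum fun j hj => ?_))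
    exact classj hSCL hPER X j hK0 (hCOV a.1 Q hQ1 ha.1)
      (hI4 T Q V k0 s h k a.1 j qC4 X n10) (by
        first
          | exact hI2 hCHA hFRM C4 T Q V k0 s h k a.1 j hC4 qC4 X hRg hr
          | exact hI2 hCHA hFRM C4 T Q V k0 s h k a.1 j hC4 qC4 X hr)
  have tot := hCVR Q (1 / (C1 * Q ^ 54)) (Src T Q V s h k) _ hQ1 (by positivity) (by
    rw [div_le_one (by positivity)]
    exact one_le_mul_of_one_le_of_one_le hC1 (one_le_pow₀ hQ1)) (fun a ha => ha.1) loc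
  refine tot.trans ?_
  rw [Finset.mul_sum, Finset.mul_sum]
  refine Finset.sum_le_sum fun j hj => ?_
  have hg := gain_nonneg T V k0 (dl k0 j) hT0.le (by linarith)
  have hmono : Tgt T (Q ^ 1000) V k0 (dl k0 j) s h k ⊆ Tgt T (Q ^ 2000) V k0 (dl k0 j) s h k := by
    refine Tgt_mono hT0.le (one_le_pow₀ hQ1) (pow_le_pow_right₀ hQ1 (by norm_num)) (fun l => ?_)
      (by linarith) le_rfl ?_ (dl_pos j).le le_rfl
    · have : ∀ l, 0 ≤ V l := by
        intro l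
        fin_cases l
        · show 0 ≤ V 0
          linarith
        · show 0 ≤ V 1
          linarith
        · show 0 ≤ V 2
          linarith
      exact this l
    · exact mul_le_mul_of_nonneg_right (pow_le_pow_right₀ hQ1 (by norm_num)) (by linarith)
  have e1 : (4 * Q / (1 / (C1 * Q ^ 54))) ^ 3 ≤ Q ^ 171 := by
    have e2 : 4 * Q / (1 / (C1 * Q ^ 54)) = 4 * C1 * Q ^ 55 := by
      field_simp
    rw [e2]
    have e3 : 4 * C1 * Q ^ 55 ≤ Q ^ 57 := by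
      have e4 : Q ^ 57 = (Q * Q) * Q ^ 55 := by ring
      rw [e4]
      refine mul_le_mul_of_nonneg_right ?_ (by positivity)
      exact mul_le_mul (by linarith) qC1 hC10.le hQ0.le
    calc (4 * C1 * Q ^ 55) ^ 3 ≤ (Q ^ 57) ^ 3 := pow_le_pow_left₀ (by positivity) e3 3
      _ = Q ^ 171 := by ring
  have e5 : 3 * K ^ 2 * Q ^ 400 ≤ Q ^ 603 := by
    have e6 : K ≤ Q ^ 101 := by
      calc K ≤ Q * Q ^ 100 := mul_le_mul qCC (pow_le_pow_right₀ hQ1 hcC) (by positivity) hQ0.le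
        _ = Q ^ 101 := by ring
    calc 3 * K ^ 2 * Q ^ 400 ≤ Q * (Q ^ 101) ^ 2 * Q ^ 400 := by
          refine mul_le_mul_of_nonneg_right ?_ (by positivity)
          exact mul_le_mul (by linarith) (pow_le_pow_left₀ hK0 e6 2) (by positivity) hQ0.le
      _ = Q ^ 603 := by ring
  calc ENNReal.ofReal ((4 * Q / (1 / (C1 * Q ^ 54))) ^ 3) *
        (ENNReal.ofReal (3 * K ^ 2 * Q ^ 400 * gain T V k0 (dl k0 j)) *
          volume (Tgt T (Q ^ 1000) V k0 (dl k0 j) s h k))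
      ≤ ENNReal.ofReal ((4 * Q / (1 / (C1 * Q ^ 54))) ^ 3) *
        (ENNReal.ofReal (3 * K ^ 2 * Q ^ 400 * gain T V k0 (dl k0 j)) *
          volume (Tgt T (Q ^ 2000) V k0 (dl k0 j) s h k)) :=
        mul_le_mul' le_rfl (mul_le_mul' le_rfl (measure_mono hmono))
    _ ≤ ENNReal.ofReal (Q ^ 2000) * (ENNReal.ofReal (gain T V k0 (dl k0 j)) *
          volume (Tgt T (Q ^ 2000) V k0 (dl k0 j) s h k)) := by
        rw [← mul_assoc, ← mul_assoc, ← ENNReal.ofReal_mul (by positivity),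
          ← ENNReal.ofReal_mul (by positivity)]
        refine mul_le_mul' (ENNReal.ofReal_le_ofReal ?_) le_rfl
        rw [← mul_assoc]
        refine mul_le_mul_of_nonneg_right ?_ hg
        calc (4 * Q / (1 / (C1 * Q ^ 54))) ^ 3 * (3 * K ^ 2 * Q ^ 400) ≤ Q ^ 171 * Q ^ 603 :=
              mul_le_mul e1 e5 (by positivity) (by positivity)
          _ = Q ^ 774 := by ring
          _ ≤ Q ^ 2000 := pow_le_pow_right₀ hQ1 (by norm_num)

theorem i6 : I6Stmt := by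
  intro hCHA hCHE
  exact i6_ (H10.near_psi hCHE) hCHA hCHE

end Pool.Agent.F5H.BC.H90
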