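import Pool.Agent.F5H.StmtsA

/-! Squad F5H (MP_f5cbfa_nt): row A_AVG. -/

set_option autoImplicit false

open MeasureTheory Filter Topology

namespace Pool.Agent.F5H.H90

open Pool.Agent.BTL Pool.Agent.F5S

lemma chK_meas (chk : CHKStmt) (M : ℝ) (hM : 1 ≤ M) : Measurable (chK M) := by
  obtain ⟨-, -, -, h⟩ := chk M hM
  have hlip : LipschitzWith (Real.toNNReal (12 * M)) (chK M) := by
    refine LipschitzWith.of_dist_le_mul fun A A' => ?_
    rw [Real.coe_toNNReal _ (by positivity), dist_eq_norm, dist_eq_norm, Real.norm_eq_abs]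
    exact h A A'
  exact hlip.continuous.measurable

/-- Row A_AVG. -/
theorem avg (chk : CHKStmt) (faf : FAFStmt) : AVGStmt := by
  intro M L R e hM hL hR he p W hW hW1 ν hν
  obtain ⟨mFA, bFA, -, mFF, -, -⟩ := faf M L R e hM hL hR he p W hW hW1
  have mchK := chK_meas chk M hM
  obtain ⟨c1, -, c3, -⟩ := chk M hM
  have hM2 : 1 ≤ 2 * M := by linarith
  set B : ℝ := 64 * (4 * e ^ 2) with hB
  have hB0 : 0 ≤ B := by positivity
  have hKMfin : volume (KM (2 * M)) < ⊤ := by
    have hsub : KM (2 * M) ⊆ Metric.closedBall 0 (2 * M) := by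
      intro A hA
      rw [Metric.mem_closedBall, dist_zero_right]
      exact KM_abs_le hM2 hA
    exact (measure_mono hsub).trans_lt measure_closedBall_lt_top
  have mf : Measurable (fun q : (ℝ × ℝ × ℝ) × (R6 × R6) =>
      chK M q.1 * FA L R e p W q.1 q.2.1 q.2.2) := (mchK.comp measurable_fst).mul mFA
  have hS : MeasurableSet ((KM (2 * M)) ×ˢ (Set.univ : Set (R6 × R6))) :=
    (measurableSet_KM _).prod MeasurableSet.univ
  have hSfin : (volume.prod ν) ((KM (2 * M)) ×ˢ (Set.univ : Set (R6 × R6))) ≠ ⊤ := by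
    rw [Measure.prod_prod]
    exact (ENNReal.mul_lt_top hKMfin (measure_lt_top ν _)).ne
  have hint : Integrable (fun q : (ℝ × ℝ × ℝ) × (R6 × R6) =>
      chK M q.1 * FA L R e p W q.1 q.2.1 q.2.2) (volume.prod ν) := by
    have hg : Integrable (((KM (2 * M)) ×ˢ (Set.univ : Set (R6 × R6))).indicator
        (fun _ => B)) (volume.prod ν) := by
      rw [integrable_indicator_iff hS]
      exact integrableOn_const hSfin
    refine hg.mono' mf.aestronglyMeasurable (Eventually.of_forall fun q => ?_)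
    by_cases h0 : chK M q.1 = 0
    · rw [h0, zero_mul, norm_zero]
      exact Set.indicator_nonneg (fun _ _ => hB0) _
    · have hq : q ∈ (KM (2 * M)) ×ˢ (Set.univ : Set (R6 × R6)) := ⟨c3 _ h0, trivial⟩
      rw [Set.indicator_of_mem hq]
      rw [Real.norm_of_nonneg (mul_nonneg (c1 _).1 (bFA _ _ _).1)]
      calc chK M q.1 * FA L R e p W q.1 q.2.1 q.2.2 ≤ 1 * B :=
            mul_le_mul (c1 _).2 (bFA _ _ _).2 (bFA _ _ _).1 zero_le_one
        _ = B := one_mul B
  constructor
  · have h1 := hint.integral_prod_left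
    refine h1.congr (Eventually.of_forall fun A => ?_)
    exact integral_const_mul (chK M A) (fun z : R6 × R6 => FA L R e p W A z.1 z.2)
  · have h2 := integral_integral_swap (μ := (volume : Measure (ℝ × ℝ × ℝ))) (ν := ν)
      (f := fun A z => chK M A * FA L R e p W A z.1 z.2) hint
    calc ∫ A, chK M A * ∫ z, FA L R e p W A z.1 z.2 ∂ν
        = ∫ A, (∫ z, chK M A * FA L R e p W A z.1 z.2 ∂ν) := by
          refine integral_congr_ae (Eventually.of_forall fun A => ?_)
          exact (integral_const_mul (chK M A) (fun z : R6 × R6 => FA L R e p W A z.1 z.2)).symm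
      _ = ∫ z, (∫ A, chK M A * FA L R e p W A z.1 z.2) ∂ν := h2
      _ = ∫ z, FF M L R e p W z.1 z.2 ∂ν := rfl

end Pool.Agent.F5H.H90
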