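import Pool.Agent.Helper90_F5H.AsmD

/-!
MP_f5cbfa_nt, squad F5H, row C_ASM: the assembly of `CNTStmt`.
-/

set_option autoImplicit false

open MeasureTheory Complex ComplexConjugate Filter
open scoped ENNReal

namespace Pool.Agent.F5H.BC.H90

open Pool.Agent.BTL Pool.Agent.F5S Pool.Agent.F5H Pool.Agent.F5H.BC

theorem KCAt_min {T Q : ℝ} {A : ℝ × ℝ × ℝ} {V : Fin 3 → ℝ} {k0 del : ℝ} {s : Bool × Bool}
    {W₁ W₂ : ℝ} (h1 : KCAt T Q A V k0 del s W₁) (h2 : KCAt T Q A V k0 del s W₂) :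
    KCAt T Q A V k0 del s (min W₁ W₂) := by
  rcases le_total W₁ W₂ with h | h
  · rw [min_eq_left h]; exact h1
  · rw [min_eq_right h]; exact h2

/-- the bound of one tuple -/
theorem tuple {T Q q : ℝ} {c1 c2 n N : ℕ} (hT : 1 < T) (hq1 : 1 ≤ q) (hQ : Q = q ^ N)
    (hN : 1 ≤ N) (hqL : q * Lx T ≤ T ^ (277 / 500 + 1 / 10000 : ℝ))
    (hqT : q ≤ T ^ (1 / 10000 : ℝ))
    (hK1 : ∀ (A : ℝ × ℝ × ℝ) (V : Fin 3 → ℝ) (k0 del : ℝ) (s : Bool × Bool), A ∈ KM Q →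
      1 ≤ V 2 → V 2 ≤ V 1 → V 1 ≤ V 0 → V 0 ≤ Q * Lx T → T ^ (677 / 2000 : ℝ) ≤ Q * V 1 →
      1 ≤ k0 → k0 ≤ V 0 →
      KCAt T Q A V k0 del s (Q ^ c1 * (V 0 ^ 2 * V 1 ^ 2 * (V 2 * min (V 2) (Rx T / T)) *
        (min k0 (V 1) * max 1 (k0 / √(V 0 * V 1))))))
    (hK2 : ∀ (A : ℝ × ℝ × ℝ) (V : Fin 3 → ℝ) (k0 del : ℝ) (s : Bool × Bool), A ∈ KM Q →
      1 ≤ V 2 → V 2 ≤ V 1 → V 1 ≤ V 0 → V 0 ≤ Q * Lx T →
      T ^ (53 / 100 : ℝ) ≤ V 0 → T ^ (1 / 2 : ℝ) ≤ V 1 → T ^ (11 / 25 : ℝ) ≤ V 2 →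
      T ^ (11 / 25 : ℝ) ≤ k0 → k0 ≤ V 0 → k0⁻¹ ≤ del → del ≤ 1 →
      KCAt T Q A V k0 del s (Q ^ c2 * (V 0 ^ 2 * V 1 ^ 2 * (V 2 * (Rx T / T)) *
        (min k0 (V 1) * max 1 (k0 / √(V 0 * V 1))) *
        ((del ^ (2 / 5 : ℝ) + k0 ^ (-(1 / 5) : ℝ)) * (V 0 / V 1) ^ (5 / 2 : ℝ)))))
    (hNUM : NUMStmt) (hINT : INTStmt) (H : Finset Z6) (x : (Fin 3 → ℕ) × ℕ × ℕ)
    (hx : x ∈ DD T q) (p : Equiv.Perm (Fin 3)) (s : Bool × Bool) :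
    ENNReal.ofReal (EE T q n x) * ∑ h ∈ H, ∑' k : Z6, (if k = 0 then 0 else
      volume (Tgt T Q (VV x.1) (2 ^ x.2.1) (dl (2 ^ x.2.1) x.2.2) s
        (pm p (r3 h)) (pm p (r3 k)))) ≤
    ENNReal.ofReal (q ^ n * (8 * Q ^ (3 + c1 + c2)) * T ^ 4 * (4 * T ^ (999 / 500 : ℝ))) := by
  classical
  unfold DD at hx
  rw [Finset.mem_filter] at hx
  obtain ⟨_, ⟨g1, g2, g3, g4, g5⟩, g6⟩ := hx
  obtain ⟨v, κ, j⟩ := x
  simp only at g1 g2 g3 g4 g5 g6 ⊢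
  have hT0 : 0 < T := by linarith
  have q0 : 0 < q := by linarith
  have hQq : q ≤ Q := by rw [hQ]; exact le_self_pow₀ hq1 (by omega)
  have hQ1 : 1 ≤ Q := hq1.trans hQq
  have hQ0 : 0 < Q := by linarith
  have hL : 0 ≤ Lx T := Real.rpow_nonneg hT0.le _
  have hR : 0 ≤ Rx T / T := div_nonneg (Real.rpow_nonneg hT0.le _) hT0.le
  have V0 := VV_pos v 0
  have V1 := VV_pos v 1
  have V2 := VV_pos v 2
  have κ0 : (1 : ℝ) ≤ 2 ^ κ := one_le_pow₀ (by norm_num)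
  obtain ⟨_, d2, d3, _⟩ := dl_change κ0 le_rfl j
  have a4 : VV v 0 ≤ Q * Lx T := g4.trans (mul_le_mul_of_nonneg_right hQq hL)
  have a5 : T ^ (677 / 2000 : ℝ) ≤ Q * VV v 1 :=
    g5.trans (mul_le_mul_of_nonneg_right hQq V1.le)
  have a6 : VV v 0 ≤ T ^ (277 / 500 + 1 / 10000 : ℝ) := g4.trans hqL
  have a7 : T ^ (677 / 2000 - 1 / 10000 : ℝ) ≤ VV v 1 := by
    have e : T ^ (677 / 2000 : ℝ) = T ^ (1 / 10000 : ℝ) * T ^ (677 / 2000 - 1 / 10000 : ℝ) := by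
      rw [← Real.rpow_add hT0]; norm_num
    have h5 : T ^ (1 / 10000 : ℝ) * T ^ (677 / 2000 - 1 / 10000 : ℝ) ≤
        T ^ (1 / 10000 : ℝ) * VV v 1 := by
      rw [← e]
      exact g5.trans (mul_le_mul_of_nonneg_right hqT V1.le)
    exact le_of_mul_le_mul_left h5 (Real.rpow_pos_of_pos hT0 _)
  obtain ⟨N1, N2⟩ := hNUM T (VV v) (2 ^ κ) (dl (2 ^ κ) j) hT g1 g2 g3 a6 a7 κ0 g6 d2 d3
  have hgain := gain_nonneg T (VV v) (2 ^ κ) (dl (2 ^ κ) j) hT0.le (by positivity)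
  have hK0 : 0 ≤ min ((2 : ℝ) ^ κ) (VV v 1) * max 1 (2 ^ κ / √(VV v 0 * VV v 1)) := by
    refine mul_nonneg (le_min (by positivity) V1.le) (le_max_of_le_left zero_le_one)
  set K := min ((2 : ℝ) ^ κ) (VV v 1) * max 1 (2 ^ κ / √(VV v 0 * VV v 1)) with hKdef
  set g := gain T (VV v) (2 ^ κ) (dl (2 ^ κ) j) with hgdef
  have hE : EE T q n (v, κ, j) = q ^ n * (T ^ 4 / (VV v 0 * VV v 1) * g) := rfl
  have hE0 : 0 ≤ EE T q n (v, κ, j) := by rw [hE]; positivity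
  have hpow : ∀ a : ℕ, a ≤ c1 + c2 → Q ^ a ≤ Q ^ (c1 + c2) := fun a ha =>
    pow_le_pow_right₀ hQ1 ha
  -- it is enough to give `W`
  have main : ∀ W Z : ℝ, (∀ A ∈ KM Q, KCAt T Q A (VV v) (2 ^ κ) (dl (2 ^ κ) j) s W) →
      W ≤ Q ^ (c1 + c2) * (VV v 0 ^ 2 * VV v 1 ^ 2 * Z) →
      VV v 0 * VV v 1 * Z * g ≤ 4 * T ^ (999 / 500 : ℝ) →
      ENNReal.ofReal (EE T q n (v, κ, j)) * ∑ h ∈ H, ∑' k : Z6, (if k = 0 then 0 else
        volume (Tgt T Q (VV v) (2 ^ κ) (dl (2 ^ κ) j) s (pm p (r3 h)) (pm p (r3 k)))) ≤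
      ENNReal.ofReal (q ^ n * (8 * Q ^ (3 + c1 + c2)) * T ^ 4 * (4 * T ^ (999 / 500 : ℝ))) := by
    intro W Z hW hWZ hZ
    refine (mul_le_mul' le_rfl (hINT T Q (VV v) (2 ^ κ) (dl (2 ^ κ) j) W s p hQ1 hW H)).trans ?_
    rw [← ENNReal.ofReal_mul hE0]
    refine ENNReal.ofReal_le_ofReal ?_
    calc EE T q n (v, κ, j) * ((2 * Q) ^ 3 * W)
        ≤ EE T q n (v, κ, j) * ((2 * Q) ^ 3 *
          (Q ^ (c1 + c2) * (VV v 0 ^ 2 * VV v 1 ^ 2 * Z))) :=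
          mul_le_mul_of_nonneg_left (mul_le_mul_of_nonneg_left hWZ (by positivity)) hE0
      _ = q ^ n * (8 * Q ^ (3 + c1 + c2)) * T ^ 4 * (VV v 0 * VV v 1 * Z * g) := by
          rw [hE]
          have e3 : Q ^ (3 + c1 + c2) = Q ^ 3 * Q ^ (c1 + c2) := by rw [← pow_add]; ring_nf
          rw [e3]
          field_simp
          ring
      _ ≤ _ := mul_le_mul_of_nonneg_left hZ (by positivity)
  by_cases hreg : T ^ (53 / 100 : ℝ) ≤ VV v 0 ∧ T ^ (1 / 2 : ℝ) ≤ VV v 1 ∧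
      T ^ (11 / 25 : ℝ) ≤ VV v 2 ∧ T ^ (11 / 25 : ℝ) ≤ (2 : ℝ) ^ κ
  · -- near the top
    obtain ⟨r0, r1, r2, rk⟩ := hreg
    have hF0 : 0 ≤ F2c (VV v) (2 ^ κ) (dl (2 ^ κ) j) := by
      unfold F2c
      have := dl_pos (k0 := 2 ^ κ) j
      positivity
    set F := F2c (VV v) (2 ^ κ) (dl (2 ^ κ) j) with hF
    refine main (min (Q ^ c1 * (VV v 0 ^ 2 * VV v 1 ^ 2 * (VV v 2 * min (VV v 2) (Rx T / T)) * K))
      (Q ^ c2 * (VV v 0 ^ 2 * VV v 1 ^ 2 * (VV v 2 * (Rx T / T)) * K * F)))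
      ((VV v 2 * (Rx T / T)) * K * min 1 F) (fun A hA => KCAt_min ?_ ?_) ?_ ?_
    · exact hK1 A (VV v) (2 ^ κ) _ s hA g1 g2 g3 a4 a5 κ0 g6
    · exact hK2 A (VV v) (2 ^ κ) _ s hA g1 g2 g3 a4 r0 r1 r2 rk g6 d2 d3
    · have hX : 0 ≤ VV v 0 ^ 2 * VV v 1 ^ 2 * ((VV v 2 * (Rx T / T)) * K) := by positivity
      have e5 : Q ^ (c1 + c2) * (VV v 0 ^ 2 * VV v 1 ^ 2 * ((VV v 2 * (Rx T / T)) * K * min 1 F)) =
        min (Q ^ (c1 + c2) * (VV v 0 ^ 2 * VV v 1 ^ 2 * ((VV v 2 * (Rx T / T)) * K)))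
          (Q ^ (c1 + c2) * (VV v 0 ^ 2 * VV v 1 ^ 2 * ((VV v 2 * (Rx T / T)) * K)) * F) := by
        have e6 : Q ^ (c1 + c2) * (VV v 0 ^ 2 * VV v 1 ^ 2 * ((VV v 2 * (Rx T / T)) * K * min 1 F)) =
          (Q ^ (c1 + c2) * (VV v 0 ^ 2 * VV v 1 ^ 2 * ((VV v 2 * (Rx T / T)) * K))) * min 1 F := by
          ring
        rw [e6, mul_min_of_nonneg _ _ (by positivity), mul_one]
      rw [e5]
      refine min_le_min ?_ ?_
      · calc Q ^ c1 * (VV v 0 ^ 2 * VV v 1 ^ 2 * (VV v 2 * min (VV v 2) (Rx T / T)) * K)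
            ≤ Q ^ c1 * (VV v 0 ^ 2 * VV v 1 ^ 2 * (VV v 2 * (Rx T / T)) * K) := by
              refine mul_le_mul_of_nonneg_left (mul_le_mul_of_nonneg_right
                (mul_le_mul_of_nonneg_left (mul_le_mul_of_nonneg_left (min_le_right _ _) V2.le)
                  (by positivity)) hK0) (by positivity)
          _ = Q ^ c1 * (VV v 0 ^ 2 * VV v 1 ^ 2 * ((VV v 2 * (Rx T / T)) * K)) := by ring
          _ ≤ _ := mul_le_mul_of_nonneg_right (hpow c1 (by omega)) hX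
      · calc Q ^ c2 * (VV v 0 ^ 2 * VV v 1 ^ 2 * (VV v 2 * (Rx T / T)) * K * F)
            = Q ^ c2 * (VV v 0 ^ 2 * VV v 1 ^ 2 * ((VV v 2 * (Rx T / T)) * K)) * F := by ring
          _ ≤ _ := mul_le_mul_of_nonneg_right
              (mul_le_mul_of_nonneg_right (hpow c2 (by omega)) hX) hF0
    · have := N2 ⟨r0, r1, r2, rk⟩
      refine le_trans (le_of_eq ?_) this
      ring
  · refine main (Q ^ c1 * (VV v 0 ^ 2 * VV v 1 ^ 2 * (VV v 2 * min (VV v 2) (Rx T / T)) * K))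
      ((VV v 2 * min (VV v 2) (Rx T / T)) * K) (fun A hA => ?_) ?_ ?_
    · exact hK1 A (VV v) (2 ^ κ) _ s hA g1 g2 g3 a4 a5 κ0 g6
    · have hX : 0 ≤ VV v 0 ^ 2 * VV v 1 ^ 2 * ((VV v 2 * min (VV v 2) (Rx T / T)) * K) := by
        have : 0 ≤ min (VV v 2) (Rx T / T) := le_min V2.le hR
        positivity
      calc Q ^ c1 * (VV v 0 ^ 2 * VV v 1 ^ 2 * (VV v 2 * min (VV v 2) (Rx T / T)) * K)
          = Q ^ c1 * (VV v 0 ^ 2 * VV v 1 ^ 2 * ((VV v 2 * min (VV v 2) (Rx T / T)) * K)) := by ring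
        _ ≤ _ := mul_le_mul_of_nonneg_right (hpow c1 (by omega)) hX
    · have h7 := N1 hreg
      have h8 : T ^ (399 / 200 : ℝ) ≤ T ^ (999 / 500 : ℝ) :=
        Real.rpow_le_rpow_of_exponent_le hT.le (by norm_num)
      refine le_trans (le_of_eq ?_) (h7.trans (by linarith))
      ring

/-- powers of `Q = T ^ ep` -/
theorem Qpow {T : ℝ} (hT : 1 ≤ T) {n : ℕ} (hn : n ≤ 10 ^ 13) :
    (T ^ (1 / 10 ^ 20 : ℝ)) ^ n ≤ T ^ (1 / 10 ^ 6 : ℝ) := by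
  rw [← Real.rpow_natCast, ← Real.rpow_mul (by linarith)]
  refine Real.rpow_le_rpow_of_exponent_le hT ?_
  have : (n : ℝ) ≤ 10 ^ 13 := by exact_mod_cast hn
  calc (1 / 10 ^ 20 : ℝ) * n ≤ 1 / 10 ^ 20 * 10 ^ 13 := mul_le_mul_of_nonneg_left this (by positivity)
    _ ≤ _ := by norm_num

theorem asm : ASMStmt := by
  intro hF hKV hMAT hK1 hK2 hNUM hINT
  obtain ⟨cF, cF4, QF, QF2, hF⟩ := hF
  obtain ⟨cV, cV4, QV, QV2, hKV⟩ := hKV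
  obtain ⟨cM, cM4, QM, QM2, hMAT⟩ := hMAT
  obtain ⟨c1, c14, Q1, Q12, hK1⟩ := hK1
  obtain ⟨c2, c24, Q2, Q22, hK2⟩ := hK2
  have hep : (0 : ℝ) < 1 / 10 ^ 20 := by positivity
  have e1 : ∀ᶠ T : ℝ in atTop, 8 + QF + QV + QM + Q1 + Q2 ≤ T ^ (1 / 10 ^ 20 : ℝ) :=
    (tendsto_rpow_atTop hep).eventually_ge_atTop _
  have e2 : ∀ᶠ T : ℝ in atTop, Real.log T ≤ T ^ (1 / 10 ^ 20 : ℝ) := by
    have h := (isLittleO_log_rpow_atTop hep).bound (zero_lt_one)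
    filter_upwards [h, eventually_ge_atTop (1 : ℝ)] with T h1 h2
    rw [one_mul, Real.norm_eq_abs, Real.norm_eq_abs,
      abs_of_nonneg (Real.rpow_nonneg (by linarith) _)] at h1
    exact (le_abs_self _).trans h1
  obtain ⟨T1, hT1⟩ := eventually_atTop.1 (e1.and e2)
  refine ⟨1 / 10 ^ 20, ?_, 1, max 2 T1, le_rfl, le_max_of_le_left (by norm_num), ?_⟩
  · unfold rho0
    norm_num
  intro T hT H hH
  obtain ⟨a1, hl⟩ := hT1 T ((le_max_right _ _).trans hT)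
  have hT2 : (2 : ℝ) ≤ T := (le_max_left _ _).trans hT
  have hT1' : 1 ≤ T := by linarith
  have hTlt : 1 < T := by linarith
  have hT0 : 0 < T := by linarith
  set Q := T ^ (1 / 10 ^ 20 : ℝ) with hQdef
  have hQ8 : 8 ≤ Q := by linarith
  have hQF : QF ≤ Q := by linarith
  have hQV : QV ≤ Q := by linarith
  have hQM : QM ≤ Q := by linarith
  have hQ1' : Q1 ≤ Q := by linarith
  have hQ2' : Q2 ≤ Q := by linarith
  have hQ1 : 1 ≤ Q := by linarith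
  have hQ0 : 0 < Q := by linarith
  have q1 : 1 ≤ Q ^ (cF + 3) := one_le_pow₀ hQ1
  have hQq : Q ≤ Q ^ (cF + 3) := le_self_pow₀ hQ1 (by omega)
  set q := Q ^ (cF + 3) with hq
  have q0 : 0 < q := by linarith
  -- `cM + cV` may be zero, so use one more
  have hsmall : T ^ (1 / 10 ^ 6 : ℝ) ≤ T ^ (1 / 100000 : ℝ) :=
    Real.rpow_le_rpow_of_exponent_le hT1' (by norm_num)
  have P : ∀ n : ℕ, n ≤ 10 ^ 13 → Q ^ n ≤ T ^ (1 / 100000 : ℝ) := fun n hn =>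
    (Qpow hT1' hn).trans hsmall
  have hPF : Q ^ cF ≤ T ^ (1 / 100000 : ℝ) := P _ (by omega)
  have b3 : (cF + 3) * cV ≤ 10 ^ 13 := by
    calc (cF + 3) * cV ≤ (10 ^ 4 + 3) * 10 ^ 4 := Nat.mul_le_mul (by omega) cV4
      _ ≤ _ := by norm_num
  have b4 : (cF + 3) * cM ≤ 10 ^ 13 := by
    calc (cF + 3) * cM ≤ (10 ^ 4 + 3) * 10 ^ 4 := Nat.mul_le_mul (by omega) cM4
      _ ≤ _ := by norm_num
  have hPV : q ^ cV ≤ T ^ (1 / 100000 : ℝ) := by rw [hq, ← pow_mul]; exact P _ b3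
  have hPM : q ^ cM ≤ T ^ (1 / 100000 : ℝ) := by rw [hq, ← pow_mul]; exact P _ b4
  have hLx : Lx T = T ^ (277 / 500 : ℝ) := rfl
  have hqT : q ≤ T ^ (1 / 100000 : ℝ) := by rw [hq]; exact P _ (by omega)
  have hqT' : q ≤ T ^ (1 / 10000 : ℝ) :=
    hqT.trans (Real.rpow_le_rpow_of_exponent_le hT1' (by norm_num))
  have hqL : q * Lx T ≤ T ^ (277 / 500 + 1 / 10000 : ℝ) := by
    rw [hLx, Real.rpow_add hT0, mul_comm]
    exact mul_le_mul_of_nonneg_left hqT' (Real.rpow_nonneg hT0.le _)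
  have hQT : Q * Lx T ≤ T := by
    refine (mul_le_mul_of_nonneg_right hQq (Real.rpow_nonneg hT0.le _)).trans (hqL.trans ?_)
    calc T ^ (277 / 500 + 1 / 10000 : ℝ) ≤ T ^ (1 : ℝ) :=
          Real.rpow_le_rpow_of_exponent_le hT1' (by norm_num)
      _ = T := Real.rpow_one T
  have hlq : Real.log T ≤ q := hl.trans hQq
  -- the second level; `cV + 1` instead of `cV`, so that the exponent is positive
  set N := cM + (cV + 1) with hN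
  have hqQ : q ≤ q ^ N := le_self_pow₀ q1 (by omega)
  have hlQ : Real.log T ≤ q ^ N := hlq.trans hqQ
  have hN4 : N ≤ 2 * 10 ^ 4 + 1 := by omega
  have b5 : ∀ m : ℕ, m ≤ 10 ^ 4 → (cF + 3) * N * m ≤ 10 ^ 13 := by
    intro m hm
    calc (cF + 3) * N * m ≤ (10 ^ 4 + 3) * (2 * 10 ^ 4 + 1) * 10 ^ 4 :=
          Nat.mul_le_mul (Nat.mul_le_mul (by omega) hN4) hm
      _ ≤ _ := by norm_num
  have hP1 : (q ^ N) ^ c1 ≤ T ^ (1 / 100000 : ℝ) := by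
    rw [hq, ← pow_mul, ← pow_mul, ← mul_assoc]; exact P _ (b5 c1 c14)
  have hP2 : (q ^ N) ^ c2 ≤ T ^ (1 / 100000 : ℝ) := by
    rw [hq, ← pow_mul, ← pow_mul, ← mul_assoc]; exact P _ (b5 c2 c24)
  have hKV' : ∀ (A : ℝ × ℝ × ℝ) (V : Fin 3 → ℝ) (s : Bool × Bool) (th : ℝ) (h k : R6),
      A ∈ KM q → Rg T q V → Sz q V h → Gd q T (hG A h) (sg s) th →
      BD T q q (fun l => q * V l) (hG A h) (sg s) th (kG A k) → ‖k‖ ≤ q ^ (cV + 1) * V 0 := by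
    intro A V s th h k h1 h2 h3 h4 h5
    have h6 := hKV T q (hQV.trans hQq) hlq hPV A V s th h k h1 h2 h3 h4 h5
    have h7 : 0 ≤ V 0 := by
      have := h2.1
      have := h2.2.1
      have := h2.2.2.1
      linarith
    refine h6.trans (mul_le_mul_of_nonneg_right ?_ h7)
    exact pow_le_pow_right₀ q1 (by omega)
  have tot := total (c := cF) (cV := cV + 1) (cM := cM)
    (B := q ^ (1 + cM + (cV + 1)) * (8 * (q ^ N) ^ (3 + c1 + c2)) * T ^ 4 *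
      (4 * T ^ (999 / 500 : ℝ))) hT1' hQ8 hl hQT H hH
    (fun h k h1 h2 h3 => hF T Q hQF hl hPF h k h1 h2 h3) hKV'
    (hMAT T q (hQM.trans hQq) hlq hPM)
    (fun x hx p s => tuple hTlt q1 rfl (by omega) hqL hqT'
      (hK1 T (q ^ N) (hQ1'.trans (hQq.trans hqQ)) hlQ hP1)
      (hK2 T (q ^ N) (hQ2'.trans (hQq.trans hqQ)) hlQ hP2) hNUM hINT H x hx p s)
    (by positivity)
  refine tot.trans (ENNReal.ofReal_le_ofReal ?_)
  rw [one_mul]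
  -- the powers of `Q`
  have e5 : 24 * (4 * q) ^ 5 * (q ^ (1 + cM + (cV + 1)) * (8 * (q ^ N) ^ (3 + c1 + c2)) * T ^ 4 *
      (4 * T ^ (999 / 500 : ℝ))) =
      (786432 * (q ^ 5 * q ^ (1 + N) * q ^ (N * (3 + c1 + c2)))) *
        (T ^ 4 * T ^ (999 / 500 : ℝ)) := by
    rw [← pow_mul, show 1 + cM + (cV + 1) = 1 + N by omega]
    ring
  rw [e5]
  have e6 : q ^ 5 * q ^ (1 + N) * q ^ (N * (3 + c1 + c2)) =
      Q ^ ((cF + 3) * (6 + N + N * (3 + c1 + c2))) := by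
    rw [← pow_add, ← pow_add, hq, ← pow_mul]
    congr 1
    ring
  have e7 : (786432 : ℝ) ≤ Q ^ 7 := by
    calc (786432 : ℝ) ≤ 8 ^ 7 := by norm_num
      _ ≤ Q ^ 7 := pow_le_pow_left₀ (by norm_num) hQ8 7
  have b6 : 7 + (cF + 3) * (6 + N + N * (3 + c1 + c2)) ≤ 10 ^ 13 := by
    have h1 : N * (3 + c1 + c2) ≤ (2 * 10 ^ 4 + 1) * (3 + 10 ^ 4 + 10 ^ 4) :=
      Nat.mul_le_mul hN4 (by omega)
    calc 7 + (cF + 3) * (6 + N + N * (3 + c1 + c2)) ≤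
        7 + (10 ^ 4 + 3) * (6 + (2 * 10 ^ 4 + 1) + (2 * 10 ^ 4 + 1) * (3 + 10 ^ 4 + 10 ^ 4)) :=
          Nat.add_le_add_left (Nat.mul_le_mul (by omega) (by omega)) _
      _ ≤ _ := by norm_num
  have e8 : 786432 * (q ^ 5 * q ^ (1 + N) * q ^ (N * (3 + c1 + c2))) ≤ T ^ (1 / 10 ^ 6 : ℝ) := by
    rw [e6]
    calc 786432 * Q ^ ((cF + 3) * (6 + N + N * (3 + c1 + c2)))
        ≤ Q ^ 7 * Q ^ ((cF + 3) * (6 + N + N * (3 + c1 + c2))) :=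
          mul_le_mul_of_nonneg_right e7 (by positivity)
      _ = Q ^ (7 + (cF + 3) * (6 + N + N * (3 + c1 + c2))) := (pow_add _ _ _).symm
      _ ≤ _ := Qpow hT1' b6
  have e9 : (T ^ 4 * T ^ (999 / 500 : ℝ) : ℝ) = T ^ (4 + 999 / 500 : ℝ) := by
    rw [Real.rpow_add hT0]
    congr 1
    exact_mod_cast (Real.rpow_natCast T 4).symm
  rw [e9]
  refine (mul_le_mul_of_nonneg_right e8 (Real.rpow_nonneg hT0.le _)).trans ?_
  rw [← Real.rpow_add hT0]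
  exact Real.rpow_le_rpow_of_exponent_le hT1' (by norm_num)

end Pool.Agent.F5H.BC.H90
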