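import Pool.Agent.F5H.StmtsD

/-!
MP_f5cbfa_nt, squad F5H, row C_ASM, first part: frames, permutations, monotonicity.
-/

set_option autoImplicit false

open MeasureTheory Complex ComplexConjugate

namespace Pool.Agent.F5H.BC.H90

open Pool.Agent.BTL Pool.Agent.F5S Pool.Agent.F5H Pool.Agent.F5H.BC

theorem nr_le (x : ℝ × ℝ) : ‖x‖ ^ 2 ≤ nr x ∧ nr x ≤ 2 * ‖x‖ ^ 2 := by
  have h1 : ‖x‖ = max |x.1| |x.2| := rfl
  have a1 : x.1 ^ 2 = |x.1| ^ 2 := (sq_abs _).symm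
  have a2 : x.2 ^ 2 = |x.2| ^ 2 := (sq_abs _).symm
  have b1 := abs_nonneg x.1
  have b2 := abs_nonneg x.2
  unfold nr
  rw [a1, a2, h1]
  rcases le_total |x.1| |x.2| with h | h
  · rw [max_eq_right h]
    constructor <;> nlinarith
  · rw [max_eq_left h]
    constructor <;> nlinarith

theorem KM_pos {A : ℝ × ℝ × ℝ} {M : ℝ} (hM : 1 ≤ M) (hA : A ∈ KM M) : 0 < A.1 ∧ 0 < disc A := by
  have h10 := (hA (1, 0)).1
  simp only [qf, nr] at h10
  norm_num at h10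
  have hM0 : 0 < M := by linarith
  refine ⟨lt_of_lt_of_le (inv_pos.2 hM0) h10, ?_⟩
  exact lt_of_lt_of_le (by positivity) (KM_disc hM hA).1

theorem norm_gA_sq {A : ℝ × ℝ × ℝ} (h1 : 0 < A.1) (h2 : 0 < disc A) (x : ℝ × ℝ) :
    ‖gA A x‖ ^ 2 = qf A x := by
  have e : ‖gA A x‖ ^ 2 = normSq (gA A x) := (Complex.sq_norm _)
  rw [e, Complex.normSq_apply]
  unfold gA
  have s1 : √A.1 * √A.1 = A.1 := Real.mul_self_sqrt h1.le
  have s2 : √(disc A / A.1) * √(disc A / A.1) = disc A / A.1 :=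
    Real.mul_self_sqrt (div_pos h2 h1).le
  have s3 : √A.1 ≠ 0 := (Real.sqrt_pos.2 h1).ne'
  have s4 : A.2.1 / √A.1 * (A.2.1 / √A.1) = A.2.1 ^ 2 / A.1 := by
    rw [div_mul_div_comm, s1, sq]
  have s5 : √A.1 * (A.2.1 / √A.1) = A.2.1 := by field_simp
  have s6 : disc A / A.1 + A.2.1 ^ 2 / A.1 = A.2.2 := by
    unfold disc; field_simp; ring
  have : (√A.1 * x.1 + A.2.1 / √A.1 * x.2) * (√A.1 * x.1 + A.2.1 / √A.1 * x.2) +
      √(disc A / A.1) * x.2 * (√(disc A / A.1) * x.2) =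
      (√A.1 * √A.1) * x.1 ^ 2 + 2 * (√A.1 * (A.2.1 / √A.1)) * x.1 * x.2 +
      (√(disc A / A.1) * √(disc A / A.1) + A.2.1 / √A.1 * (A.2.1 / √A.1)) * x.2 ^ 2 := by ring
  rw [this, s1, s2, s4, s5, s6]
  unfold qf
  rfl

theorem norm_gA {A : ℝ × ℝ × ℝ} {M : ℝ} (hM : 1 ≤ M) (hA : A ∈ KM M) (x : ℝ × ℝ) :
    ‖x‖ ≤ M * ‖gA A x‖ ∧ ‖gA A x‖ ≤ 2 * M * ‖x‖ := by
  obtain ⟨p1, p2⟩ := KM_pos hM hA
  have hM0 : 0 < M := by linarith
  have e := norm_gA_sq p1 p2 x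
  obtain ⟨n1, n2⟩ := nr_le x
  have hx := hA x
  have g0 := norm_nonneg (gA A x)
  have x0 := norm_nonneg x
  constructor
  · refine le_of_sq_le_sq ?_ (by positivity)
    have h1 : nr x ≤ M * qf A x := by
      have := hx.1
      rw [div_le_iff₀ hM0] at this
      linarith
    rw [mul_pow, e]
    have h2 : 0 ≤ qf A x := by rw [← e]; positivity
    nlinarith
  · refine le_of_sq_le_sq ?_ (by positivity)
    rw [mul_pow, e]
    have h2 := hx.2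
    have h3 : 0 ≤ ‖x‖ ^ 2 := by positivity
    nlinarith [mul_le_mul_of_nonneg_left n2 hM0.le, mul_nonneg (mul_nonneg hM0.le (sub_nonneg.2 hM)) h3]

theorem cp_pm (p : Equiv.Perm (Fin 3)) (x : R6) (l : Fin 3) : cp (pm p x) l = cp x (p l) := by
  unfold pm tr
  fin_cases l <;> rfl

theorem norm_cp_le (x : R6) (l : Fin 3) : ‖cp x l‖ ≤ ‖x‖ := by
  have e : ‖x‖ = max ‖x.1‖ (max ‖x.2.1‖ ‖x.2.2‖) := rfl
  rw [e]
  fin_cases l
  · exact le_max_left _ _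
  · exact le_max_of_le_right (le_max_left _ _)
  · exact le_max_of_le_right (le_max_right _ _)

theorem norm_le_of_cp {x : R6} {a : ℝ} (h : ∀ l, ‖cp x l‖ ≤ a) : ‖x‖ ≤ a := by
  have e : ‖x‖ = max ‖x.1‖ (max ‖x.2.1‖ ‖x.2.2‖) := rfl
  rw [e]
  exact max_le (h 0) (max_le (h 1) (h 2))

theorem norm_pm (p : Equiv.Perm (Fin 3)) (x : R6) : ‖pm p x‖ = ‖x‖ := by
  refine le_antisymm (norm_le_of_cp fun l => ?_) (norm_le_of_cp fun l => ?_)
  · rw [cp_pm]; exact norm_cp_le _ _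
  · have := norm_cp_le (pm p x) (p.symm l)
    rwa [cp_pm, Equiv.apply_symm_apply] at this

theorem V2r_le (x : R6) {i j : Fin 3} (hij : i ≠ j) : V2r x ≤ max ‖cp x i‖ ‖cp x j‖ := by
  unfold V2r
  fin_cases i <;> fin_cases j <;> first
    | exact absurd rfl hij
    | (simp [cp]
       grind)

theorem le_V2r (x : R6) {i j : Fin 3} (hij : i ≠ j) : min ‖cp x i‖ ‖cp x j‖ ≤ V2r x := by
  unfold V2r
  fin_cases i <;> fin_cases j <;> first
    | exact absurd rfl hij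
    | simp [cp]

theorem Gd_mono {Q Q' T : ℝ} {H : Fin 3 → ℂ} {ep : Fin 3 → ℝ} {th : ℝ} (hT : 0 ≤ T) (h : Q ≤ Q')
    (hG : Gd Q T H ep th) : Gd Q' T H ep th := by
  obtain ⟨h1, h2, h3, h4⟩ := hG
  have hL : 0 ≤ Lx T := Real.rpow_nonneg hT _
  have hR : 0 ≤ Rx T := Real.rpow_nonneg hT _
  refine ⟨fun l => ⟨(h1 l).1.trans ?_, (h1 l).2.trans ?_⟩, fun l hl => (h2 l hl).trans ?_,
    h3.trans ?_, fun l m hlm => (h4 l m hlm).trans ?_⟩
  · exact mul_le_mul_of_nonneg_right h (norm_nonneg _)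
  · exact mul_le_mul_of_nonneg_right h hL
  · exact mul_le_mul_of_nonneg_right h (norm_nonneg _)
  · exact mul_le_mul_of_nonneg_right h hR
  · exact mul_le_mul_of_nonneg_right h (abs_nonneg _)

theorem BD_mono {T c₁ c₂ c₁' c₂' : ℝ} {b b' : Fin 3 → ℝ} {H : Fin 3 → ℂ} {ep : Fin 3 → ℝ} {th : ℝ}
    {K : Fin 3 → ℂ} (hT : 0 ≤ T) (h1 : c₁ ≤ c₁') (h2 : c₂ ≤ c₂') (h3 : ∀ l, b l ≤ b' l)
    (h : BD T c₁ c₂ b H ep th K) : BD T c₁' c₂' b' H ep th K := by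
  obtain ⟨a1, a2, a3, a4, a5, a6⟩ := h
  refine ⟨a1.trans ?_, a2.trans ?_, a3.trans ?_, a4.trans h1, a5.trans ?_,
    fun l => (a6 l).trans (h3 l)⟩
  · exact mul_le_mul_of_nonneg_right h1 hT
  · exact mul_le_mul_of_nonneg_right h1 hT
  · exact mul_le_mul_of_nonneg_right h1 hT
  · exact mul_le_mul_of_nonneg_right h2 hT

theorem Tgt_mono {T Q Q' : ℝ} {V : Fin 3 → ℝ} {k0 k0' del del' : ℝ} {s : Bool × Bool} {h k : R6}
    (hT : 0 ≤ T) (hQ : 1 ≤ Q) (hQQ : Q ≤ Q') (hV : ∀ l, 0 ≤ V l) (hk : 0 < k0') (hkk : k0' ≤ k0)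
    (hq : Q * k0 ≤ Q' * k0') (hd : 0 ≤ del) (hdd : del ≤ del') :
    Tgt T Q V k0 del s h k ⊆ Tgt T Q' V k0' del' s h k := by
  rintro a ⟨h1, h2, h3, h4, h5, h6, h7⟩
  have hQ0 : 0 < Q := by linarith
  have hQ0' : 0 < Q' := by linarith
  refine ⟨KM_mono hQ0 hQQ h1, h2, fun l => ⟨(h3 l).1.trans ?_, (h3 l).2.trans ?_⟩,
    Gd_mono hT hQQ h4, h5.trans hq, BD_mono hT hQQ ?_ (fun l => ?_) h6, h7.trans ?_⟩
  · exact mul_le_mul_of_nonneg_right hQQ (norm_nonneg _)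
  · exact mul_le_mul_of_nonneg_right hQQ (hV l)
  · exact div_le_div₀ hQ0'.le hQQ hk hkk
  · exact mul_le_mul_of_nonneg_right hQQ (hV l)
  · have h8 : 0 ≤ V 0 ^ 2 := by positivity
    have e1 : Q * (del * k0 * V 0 ^ 2) = (Q * k0) * del * V 0 ^ 2 := by ring
    have e2 : Q' * (del' * k0' * V 0 ^ 2) = (Q' * k0') * del' * V 0 ^ 2 := by ring
    rw [e1, e2]
    refine mul_le_mul_of_nonneg_right ?_ h8
    have h9 : 0 ≤ Q' * k0' := by positivity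
    exact mul_le_mul hq hdd hd h9

theorem dl_pos {k0 : ℝ} (j : ℕ) : 0 < dl k0 j := lt_of_lt_of_le (by positivity) (le_max_left _ _)

/-- change of `k0` in the dyadic values of `del` -/
theorem dl_change {k0 k0' : ℝ} (hk : 1 ≤ k0') (hkk : k0' ≤ k0) (j : ℕ) :
    dl k0 j ≤ dl k0' j ∧ k0'⁻¹ ≤ dl k0' j ∧ dl k0' j ≤ 1 ∧ dl k0' j * k0' ≤ dl k0 j * k0 := by
  have h0 : 0 < k0' := by linarith
  have h0' : 0 < k0 := by linarith
  have h1 : k0⁻¹ ≤ k0'⁻¹ := inv_anti₀ h0 hkk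
  have h2 : ((1 : ℝ) / 2) ^ j ≤ 1 := pow_le_one₀ (by norm_num) (by norm_num)
  have h3 : k0'⁻¹ ≤ 1 := inv_le_one_of_one_le₀ hk
  unfold dl
  refine ⟨max_le_max_left _ h1, le_max_right _ _, max_le h2 h3, ?_⟩
  rw [max_mul_of_nonneg _ _ h0.le, max_mul_of_nonneg _ _ h0'.le, inv_mul_cancel₀ h0.ne',
    inv_mul_cancel₀ h0'.ne']
  exact max_le_max_right _ (mul_le_mul_of_nonneg_left hkk (by positivity))

theorem gain_nonneg (T : ℝ) (V : Fin 3 → ℝ) (k0 del : ℝ) (hT : 0 ≤ T) (h0 : 0 ≤ k0) :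
    0 ≤ gain T V k0 del := by
  unfold gain
  refine mul_nonneg (le_max_of_le_left (sq_nonneg _)) (le_min zero_le_one ?_)
  refine mul_nonneg ?_ (le_max_of_le_left h0)
  unfold kpr
  exact le_max_of_le_right (Real.rpow_nonneg hT _)

/-- change of `k0` and `del` in the gain -/
theorem gain_change {T : ℝ} {V : Fin 3 → ℝ} {k0 k0' del del' q : ℝ} (hT : 0 < T) (hV : 0 < V 0)
    (hV2 : 0 ≤ V 2) (hk : 0 < k0') (hkk : k0' ≤ k0) (hq : k0 ≤ q * k0')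
    (hd' : 0 < del') (hdk : del' * k0' ≤ del * k0) (hq1 : 1 ≤ q) :
    gain T V k0 del ≤ q * gain T V k0' del' := by
  have hk0 : 0 < k0 := by linarith
  have hR : 0 < Rx T / T := div_pos (Real.rpow_pos_of_pos hT _) hT
  have hkap : 0 ≤ kap T (V 0) := Real.sqrt_nonneg _
  have hkpr : 0 ≤ kpr T (V 0) := le_max_of_le_right (Real.rpow_nonneg hT.le _)
  unfold gain
  have h1 : max (kap T (V 0) ^ 2) (max (kap T (V 0) / k0) ((kap T (V 0) * V 2 / (k0 * (Rx T / T))) ^ 2))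
      ≤ max (kap T (V 0) ^ 2) (max (kap T (V 0) / k0')
        ((kap T (V 0) * V 2 / (k0' * (Rx T / T))) ^ 2)) := by
    refine max_le_max_left _ (max_le_max ?_ ?_)
    · exact div_le_div_of_nonneg_left hkap hk hkk
    · refine pow_le_pow_left₀ (by positivity) ?_ 2
      exact div_le_div_of_nonneg_left (by positivity) (by positivity)
        (mul_le_mul_of_nonneg_right hkk hR.le)
  have h2 : min 1 (kpr T (V 0) * max k0 (T ^ 2 / (del * k0 * V 0 ^ 2))) ≤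
      q * min 1 (kpr T (V 0) * max k0' (T ^ 2 / (del' * k0' * V 0 ^ 2))) := by
    rw [mul_min_of_nonneg _ _ (by linarith : (0 : ℝ) ≤ q)]
    refine min_le_min (by linarith) ?_
    rw [mul_left_comm]
    refine mul_le_mul_of_nonneg_left ?_ hkpr
    rw [mul_max_of_nonneg _ _ (by linarith : (0 : ℝ) ≤ q)]
    refine max_le_max hq ?_
    have h3 : T ^ 2 / (del * k0 * V 0 ^ 2) ≤ T ^ 2 / (del' * k0' * V 0 ^ 2) := by
      refine div_le_div_of_nonneg_left (by positivity) (by positivity) ?_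
      exact mul_le_mul_of_nonneg_right hdk (by positivity)
    refine h3.trans ?_
    exact le_mul_of_one_le_left (by positivity) hq1
  have h3 : 0 ≤ min 1 (kpr T (V 0) * max k0 (T ^ 2 / (del * k0 * V 0 ^ 2))) := by positivity
  calc _ ≤ max (kap T (V 0) ^ 2) (max (kap T (V 0) / k0')
        ((kap T (V 0) * V 2 / (k0' * (Rx T / T))) ^ 2)) *
        (q * min 1 (kpr T (V 0) * max k0' (T ^ 2 / (del' * k0' * V 0 ^ 2)))) := by
        refine mul_le_mul h1 h2 h3 (by positivity)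
    _ = _ := by ring

end Pool.Agent.F5H.BC.H90
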