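import Pool.Agent.Helper90_F5H.AsmA

/-!
MP_f5cbfa_nt, squad F5H, row C_ASM, second part: one difference `h` and one dual vector `k`.
-/

set_option autoImplicit false

open MeasureTheory Complex ComplexConjugate

namespace Pool.Agent.F5H.BC.H90

open Pool.Agent.BTL Pool.Agent.F5S Pool.Agent.F5H Pool.Agent.F5H.BC

/-- dyadic sizes -/
noncomputable def VV (v : Fin 3 → ℕ) (l : Fin 3) : ℝ := (2 : ℝ) ^ (v l)

theorem VV_pos (v : Fin 3 → ℕ) (l : Fin 3) : 0 < VV v l := by unfold VV; positivity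

theorem one_le_VV (v : Fin 3 → ℕ) (l : Fin 3) : 1 ≤ VV v l := one_le_pow₀ (by norm_num)

theorem dyad {x : ℝ} (hx : 1 ≤ x) : ∃ n : ℕ, (2 : ℝ) ^ n ≤ x ∧ x ≤ 2 * 2 ^ n := by
  obtain ⟨n, h1, h2⟩ := exists_nat_pow_near hx (by norm_num : (1 : ℝ) < 2)
  exact ⟨n, h1, by rw [pow_succ] at h2; linarith⟩

theorem sizes {M : ℝ} (hM : 1 ≤ M) {A : ℝ × ℝ × ℝ} (hA : A ∈ KM M) {h : R6}
    (h1 : ∀ l, 1 ≤ ‖cp h l‖) (hS : Srt (hG A h)) :
    ∃ v : Fin 3 → ℕ, VV v 2 ≤ VV v 1 ∧ VV v 1 ≤ VV v 0 ∧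
      (∀ l, VV v l ≤ 2 * M ^ 2 * ‖cp h l‖ ∧ ‖cp h l‖ ≤ 2 * VV v l) ∧ VV v 0 ≤ ‖h‖ := by
  obtain ⟨n0, a0, b0⟩ := dyad (h1 0)
  obtain ⟨n1, a1, b1⟩ := dyad (h1 1)
  obtain ⟨n2, a2, b2⟩ := dyad (h1 2)
  have hM0 : 0 < M := by linarith
  have key : ∀ i j : Fin 3, ‖hG A h i‖ ≤ ‖hG A h j‖ → ‖cp h i‖ ≤ 2 * M ^ 2 * ‖cp h j‖ := by
    intro i j hij
    calc ‖cp h i‖ ≤ M * ‖gA A (cp h i)‖ := (norm_gA hM hA _).1
      _ ≤ M * ‖gA A (cp h j)‖ := mul_le_mul_of_nonneg_left hij hM0.le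
      _ ≤ M * (2 * M * ‖cp h j‖) := mul_le_mul_of_nonneg_left (norm_gA hM hA _).2 hM0.le
      _ = _ := by ring
  have k21 := key 2 1 hS.1
  have k10 := key 1 0 hS.2
  have k20 := key 2 0 (hS.1.trans hS.2)
  have triv : ∀ l, ‖cp h l‖ ≤ 2 * M ^ 2 * ‖cp h l‖ := fun l => key l l le_rfl
  have m0 : (2 : ℝ) ^ n0 ≤ 2 ^ max n0 (max n1 n2) :=
    pow_le_pow_right₀ (by norm_num) (le_max_left _ _)
  have m1 : (2 : ℝ) ^ n1 ≤ 2 ^ max n1 n2 := pow_le_pow_right₀ (by norm_num) (le_max_left _ _)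
  have m2 : (2 : ℝ) ^ n2 ≤ 2 ^ max n1 n2 := pow_le_pow_right₀ (by norm_num) (le_max_right _ _)
  have m10 : (2 : ℝ) ^ max n1 n2 ≤ 2 ^ max n0 (max n1 n2) :=
    pow_le_pow_right₀ (by norm_num) (le_max_right _ _)
  have u1 : (2 : ℝ) ^ max n1 n2 ≤ max ‖cp h 1‖ ‖cp h 2‖ := by
    rcases le_total n1 n2 with hh | hh
    · rw [max_eq_right hh]; exact le_max_of_le_right a2
    · rw [max_eq_left hh]; exact le_max_of_le_left a1
  have u0 : (2 : ℝ) ^ max n0 (max n1 n2) ≤ max ‖cp h 0‖ (max ‖cp h 1‖ ‖cp h 2‖) := by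
    rcases le_total n0 (max n1 n2) with hh | hh
    · rw [max_eq_right hh]; exact le_max_of_le_right u1
    · rw [max_eq_left hh]; exact le_max_of_le_left a0
  refine ⟨![max n0 (max n1 n2), max n1 n2, n2], m2, m10, fun l => ?_, ?_⟩
  · fin_cases l
    · refine ⟨u0.trans (max_le (triv 0) (max_le k10 k20)), b0.trans ?_⟩
      exact mul_le_mul_of_nonneg_left m0 (by norm_num)
    · refine ⟨u1.trans (max_le (triv 1) k21), b1.trans ?_⟩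
      exact mul_le_mul_of_nonneg_left m1 (by norm_num)
    · exact ⟨a2.trans (triv 2), b2⟩
  · refine u0.trans (max_le (norm_cp_le _ _) (max_le (norm_cp_le _ _) (norm_cp_le _ _)))

theorem kap_nonneg (T V : ℝ) : 0 ≤ kap T V := Real.sqrt_nonneg _

theorem kap_two {T V W : ℝ} (hT : 0 < T) (hV : 0 ≤ V) (h : W ≤ 2 * V) :
    kap T W ≤ 2 * kap T V := by
  unfold kap
  have h1 : W / T ≤ 2 ^ 2 * (V / T) := by
    rw [← mul_div_assoc]
    exact div_le_div_of_nonneg_right (by linarith) hT.le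
  calc √(W / T) ≤ √(2 ^ 2 * (V / T)) := Real.sqrt_le_sqrt h1
    _ = 2 * √(V / T) := by
      rw [Real.sqrt_mul (by norm_num), Real.sqrt_sq (by norm_num)]

theorem kpr_two {T V W : ℝ} (hT : 0 < T) (hV : 0 ≤ V) (h : W ≤ 2 * V) :
    kpr T W ≤ 8 * kpr T V := by
  unfold kpr
  have h0 := kap_nonneg T W
  have h1 := kap_two hT hV h
  have h2 : kap T W ^ 3 ≤ 8 * kap T V ^ 3 := by
    calc kap T W ^ 3 ≤ (2 * kap T V) ^ 3 := pow_le_pow_left₀ h0 h1 3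
      _ = _ := by ring
  have h3 : 0 ≤ T ^ (-(97 / 100) : ℝ) := Real.rpow_nonneg hT.le _
  rw [mul_max_of_nonneg _ _ (by norm_num : (0 : ℝ) ≤ 8)]
  exact max_le_max h2 (by linarith)

theorem kap_le_one {T V : ℝ} (hT : 0 < T) (h : V ≤ T) : kap T V ≤ 1 := by
  unfold kap
  calc √(V / T) ≤ √1 := Real.sqrt_le_sqrt ((div_le_one hT).2 h)
    _ = 1 := Real.sqrt_one

theorem kpr_le_one {T V : ℝ} (hT : 1 ≤ T) (h : V ≤ T) : kpr T V ≤ 1 := by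
  unfold kpr
  refine max_le (pow_le_one₀ (kap_nonneg _ _) (kap_le_one (by linarith) h)) ?_
  exact Real.rpow_le_one_of_one_le_of_nonpos hT (by norm_num)

open Classical in
/-- the tuples `(v, κ, j)` -/
noncomputable def DD (T Q : ℝ) : Finset ((Fin 3 → ℕ) × ℕ × ℕ) :=
  ((Fintype.piFinset fun _ : Fin 3 => Finset.range ⌈3 * Q⌉₊) ×ˢ
    (Finset.range ⌈3 * Q⌉₊ ×ˢ Finset.range ⌈3 * Q⌉₊)).filter
      fun x => Rg T Q (VV x.1) ∧ (2 : ℝ) ^ x.2.1 ≤ VV x.1 0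

/-- the coefficient of a tuple -/
noncomputable def EE (T Q : ℝ) (c : ℕ) (x : (Fin 3 → ℕ) × ℕ × ℕ) : ℝ :=
  Q ^ c * (T ^ 4 / (VV x.1 0 * VV x.1 1) * gain T (VV x.1) (2 ^ x.2.1) (dl (2 ^ x.2.1) x.2.2))

/-- the set on the right of `F2Stmt` -/
def SS (T Q : ℝ) (c : ℕ) (h k : R6) (p : Equiv.Perm (Fin 3)) (s : Bool × Bool) :
    Set ((ℝ × ℝ × ℝ) × ℝ) :=
  {a : (ℝ × ℝ × ℝ) × ℝ | a.1 ∈ KM (2 * Q) ∧ a.2 ∈ Set.Ioc (-Real.pi) Real.pi ∧
    Srt (hG a.1 (pm p h)) ∧ Gd (Q ^ c) T (hG a.1 (pm p h)) (sg s) a.2 ∧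
    BD T (Q ^ c * kap T ‖h‖) (Q ^ c * kpr T ‖h‖) (fun l => Q ^ c * ‖hG a.1 (pm p h) l‖)
      (hG a.1 (pm p h)) (sg s) a.2 (kG a.1 (pm p k))}

/-- the sizes and the inclusion into the source -/
theorem sub_Src {T Q : ℝ} {c : ℕ} {h k : R6} {p : Equiv.Perm (Fin 3)} {s : Bool × Bool}
    (hT : 1 ≤ T) (hQ : 8 ≤ Q) (h1 : ∀ l, 1 ≤ ‖cp h l‖) (h2 : ‖h‖ ≤ Q * Lx T)
    (h3 : T ^ (677 / 2000 : ℝ) < V2r h) (hne : (SS T Q c h k p s).Nonempty) :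
    ∃ v : Fin 3 → ℕ, Rg T (Q ^ (c + 3)) (VV v) ∧ Sz (Q ^ (c + 3)) (VV v) (pm p h) ∧
      SS T Q c h k p s ⊆ Src T (Q ^ (c + 3)) (VV v) s (pm p h) (pm p k) ∧ VV v 0 ≤ ‖h‖ ∧
      Q ^ c * T ^ 4 / (‖h‖ * V2r h) ≤ Q ^ (c + 3) * (T ^ 4 / (VV v 0 * VV v 1)) := by
  obtain ⟨a, ha⟩ := hne
  have hT0 : 0 < T := by linarith
  have hQ0 : 0 < Q := by linarith
  have hQ1 : 1 ≤ Q := by linarith
  have hM : 1 ≤ 2 * Q := by linarith
  have hL : 0 ≤ Lx T := Real.rpow_nonneg hT0.le _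
  have h1' : ∀ l, 1 ≤ ‖cp (pm p h) l‖ := fun l => by rw [cp_pm]; exact h1 _
  obtain ⟨v, v1, v2, v3, v4⟩ := sizes hM ha.1 h1' ha.2.2.1
  rw [norm_pm] at v4
  have V0 := VV_pos v 0
  have V1 := VV_pos v 1
  -- powers
  have qc : 1 ≤ Q ^ c := one_le_pow₀ hQ1
  have q8 : 8 * Q ^ 2 ≤ Q ^ (c + 3) := by
    have : Q ^ (c + 3) = Q ^ c * (Q * Q ^ 2) := by ring
    rw [this]
    have h5 : 8 * Q ^ 2 ≤ Q * Q ^ 2 := mul_le_mul_of_nonneg_right hQ (by positivity)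
    nlinarith [mul_nonneg (sub_nonneg.2 qc) (by positivity : (0 : ℝ) ≤ Q * Q ^ 2)]
  have q9 : Q ^ c * 8 ≤ Q ^ (c + 3) := by
    have : Q ^ (c + 3) = Q ^ c * (Q * Q ^ 2) := by ring
    rw [this]
    refine mul_le_mul_of_nonneg_left ?_ (by positivity)
    nlinarith
  have q10 : Q ^ c * (8 * Q) ≤ Q ^ (c + 3) := by
    have : Q ^ (c + 3) = Q ^ c * (Q * Q ^ 2) := by ring
    rw [this]
    refine mul_le_mul_of_nonneg_left ?_ (by positivity)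
    nlinarith
  have qM : 2 * (2 * Q) ^ 2 ≤ Q ^ (c + 3) := by nlinarith
  have qa : Q ≤ Q ^ (c + 3) := by nlinarith
  have qb : 2 * Q ≤ Q ^ (c + 3) := by nlinarith
  have qd : Q ^ c ≤ Q ^ (c + 3) := by nlinarith
  have q2 : 2 ≤ Q ^ (c + 3) := by nlinarith
  have hn2 : ‖h‖ ≤ 2 * VV v 0 := by
    rw [← norm_pm p h]
    refine norm_le_of_cp fun l => (v3 l).2.trans ?_
    have : VV v l ≤ VV v 0 := by
      fin_cases l
      · exact le_rfl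
      · exact v2
      · exact v1.trans v2
    linarith
  have hV2r : ∀ i j : Fin 3, i ≠ j → V2r h ≤ max ‖cp (pm p h) i‖ ‖cp (pm p h) j‖ := by
    intro i j hij
    rw [cp_pm, cp_pm]
    exact V2r_le h fun e => hij (p.injective e)
  have hV2r' : ∀ i j : Fin 3, i ≠ j → min ‖cp (pm p h) i‖ ‖cp (pm p h) j‖ ≤ V2r h := by
    intro i j hij
    rw [cp_pm, cp_pm]
    exact le_V2r h fun e => hij (p.injective e)
  refine ⟨v, ⟨one_le_VV v 2, v1, v2, ?_, ?_⟩, fun l => ⟨(v3 l).1.trans ?_, (v3 l).2.trans ?_⟩, ?_,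
    v4, ?_⟩
  · exact v4.trans (h2.trans (mul_le_mul_of_nonneg_right qa hL))
  · refine h3.le.trans ((hV2r 1 2 (by decide)).trans (max_le ?_ ?_))
    · exact (v3 1).2.trans (mul_le_mul_of_nonneg_right q2 V1.le)
    · exact (v3 2).2.trans ((mul_le_mul_of_nonneg_left v1 (by norm_num)).trans
        (mul_le_mul_of_nonneg_right q2 V1.le))
  · exact mul_le_mul_of_nonneg_right qM (norm_nonneg _)
  · exact mul_le_mul_of_nonneg_right q2 (VV_pos v l).le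
  · rintro b ⟨b1, b2, b3, b4, b5⟩
    refine ⟨KM_mono (by linarith) qb b1, b2, b3, Gd_mono hT0.le qd b4,
      BD_mono hT0.le ?_ ?_ (fun l => ?_) b5⟩
    · calc Q ^ c * kap T ‖h‖ ≤ Q ^ c * (2 * kap T (VV v 0)) :=
          mul_le_mul_of_nonneg_left (kap_two hT0 V0.le hn2) (by positivity)
        _ ≤ (Q ^ c * 8) * kap T (VV v 0) := by
          have := mul_nonneg (by positivity : (0 : ℝ) ≤ Q ^ c) (kap_nonneg T (VV v 0))
          nlinarith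
        _ ≤ _ := mul_le_mul_of_nonneg_right q9 (kap_nonneg _ _)
    · calc Q ^ c * kpr T ‖h‖ ≤ Q ^ c * (8 * kpr T (VV v 0)) :=
          mul_le_mul_of_nonneg_left (kpr_two hT0 V0.le hn2) (by positivity)
        _ = (Q ^ c * 8) * kpr T (VV v 0) := by ring
        _ ≤ _ := mul_le_mul_of_nonneg_right q9
          (le_max_of_le_right (Real.rpow_nonneg hT0.le _))
    · calc Q ^ c * ‖hG b.1 (pm p h) l‖ ≤ Q ^ c * (2 * (2 * Q) * ‖cp (pm p h) l‖) :=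
          mul_le_mul_of_nonneg_left (norm_gA hM b1 _).2 (by positivity)
        _ ≤ Q ^ c * (2 * (2 * Q) * (2 * VV v l)) :=
          mul_le_mul_of_nonneg_left (mul_le_mul_of_nonneg_left (v3 l).2 (by positivity))
            (by positivity)
        _ = (Q ^ c * (8 * Q)) * VV v l := by ring
        _ ≤ _ := mul_le_mul_of_nonneg_right q10 (VV_pos v l).le
  · -- the prefactor
    have w1 : VV v 1 ≤ 8 * Q ^ 2 * V2r h := by
      have e : 8 * Q ^ 2 = 2 * (2 * Q) ^ 2 := by ring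
      rw [e]
      refine le_trans ?_ (mul_le_mul_of_nonneg_left (hV2r' 0 1 (by decide)) (by positivity))
      rw [mul_min_of_nonneg _ _ (by positivity)]
      exact le_min (v2.trans (v3 0).1) (v3 1).1
    have hV2r0 : 0 < V2r h := lt_of_le_of_lt (Real.rpow_nonneg hT0.le _) h3
    have hh0 : 0 < ‖h‖ := lt_of_lt_of_le V0 v4
    rw [← mul_div_assoc, div_le_div_iff₀ (by positivity) (by positivity)]
    have e1 : Q ^ c * T ^ 4 * (VV v 0 * VV v 1) ≤ Q ^ c * T ^ 4 * (‖h‖ * (8 * Q ^ 2 * V2r h)) :=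
      mul_le_mul_of_nonneg_left (mul_le_mul v4 w1 V1.le hh0.le) (by positivity)
    refine e1.trans ?_
    have e2 : Q ^ c * T ^ 4 * (‖h‖ * (8 * Q ^ 2 * V2r h)) =
      (Q ^ c * (8 * Q ^ 2)) * (T ^ 4 * (‖h‖ * V2r h)) := by ring
    have e3 : Q ^ (c + 3) * T ^ 4 * (‖h‖ * V2r h) = (Q ^ c * (Q * Q ^ 2)) * (T ^ 4 * (‖h‖ * V2r h)) := by
      ring
    rw [e2, e3]
    refine mul_le_mul_of_nonneg_right (mul_le_mul_of_nonneg_left ?_ (by positivity)) (by positivity)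
    exact mul_le_mul_of_nonneg_right hQ (by positivity)

end Pool.Agent.F5H.BC.H90
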