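import Pool.Agent.Helper90_F5H.AsmB

/-!
MP_f5cbfa_nt, squad F5H, row C_ASM, third part: the tuples.
-/

set_option autoImplicit false

open MeasureTheory Complex ComplexConjugate
open scoped ENNReal

namespace Pool.Agent.F5H.BC.H90

open Pool.Agent.BTL Pool.Agent.F5S Pool.Agent.F5H Pool.Agent.F5H.BC

theorem exp_lt {T Q : ℝ} {n : ℕ} (hl : Real.log T ≤ Q) (hQ : 1 ≤ Q)
    (h : (2 : ℝ) ^ n ≤ T) : n < ⌈3 * Q⌉₊ := by
  have h1 : Real.log ((2 : ℝ) ^ n) ≤ Real.log T := Real.log_le_log (by positivity) h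
  rw [Real.log_pow] at h1
  have h2 := Real.log_two_gt_d9
  have h3 : (0 : ℝ) ≤ n := Nat.cast_nonneg n
  have h4 : (n : ℝ) * 0.69 ≤ Q := by nlinarith
  have h5 : (n : ℝ) < 3 * Q := by nlinarith
  exact_mod_cast lt_of_lt_of_le h5 (Nat.le_ceil _)

/-- one difference, one dual vector, one permutation and one pair of signs -/
theorem cell {T Q : ℝ} {c cV cM : ℕ} {h k : R6} {p : Equiv.Perm (Fin 3)} {s : Bool × Bool}
    (hT : 1 ≤ T) (hQ : 8 ≤ Q) (hl : Real.log T ≤ Q) (hQT : Q * Lx T ≤ T)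
    (h1 : ∀ l, 1 ≤ ‖cp h l‖) (h2 : ‖h‖ ≤ Q * Lx T) (h3 : T ^ (677 / 2000 : ℝ) < V2r h)
    (hk : 1 ≤ ‖k‖)
    (hKV : ∀ (A : ℝ × ℝ × ℝ) (V : Fin 3 → ℝ) (s : Bool × Bool) (th : ℝ) (h k : R6),
      A ∈ KM (Q ^ (c + 3)) → Rg T (Q ^ (c + 3)) V →
      Sz (Q ^ (c + 3)) V h → Gd (Q ^ (c + 3)) T (hG A h) (sg s) th →
      BD T (Q ^ (c + 3)) (Q ^ (c + 3)) (fun l => Q ^ (c + 3) * V l) (hG A h) (sg s) th (kG A k) →
      ‖k‖ ≤ (Q ^ (c + 3)) ^ cV * V 0)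
    (hMAT : ∀ (V : Fin 3 → ℝ) (s : Bool × Bool) (h k : R6) (k0 : ℝ), Rg T (Q ^ (c + 3)) V →
      Sz (Q ^ (c + 3)) V h → 1 ≤ k0 → k0 ≤ ‖k‖ → ‖k‖ ≤ 2 * k0 →
      volume (Src T (Q ^ (c + 3)) V s h k) ≤ ENNReal.ofReal ((Q ^ (c + 3)) ^ cM) *
        ∑ j ∈ Finset.range ⌈3 * Q ^ (c + 3)⌉₊, ENNReal.ofReal (gain T V k0 (dl k0 j)) *
          volume (Tgt T ((Q ^ (c + 3)) ^ cM) V k0 (dl k0 j) s h k)) :
    ENNReal.ofReal (Q ^ c * T ^ 4 / (‖h‖ * V2r h)) * volume (SS T Q c h k p s) ≤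
      ∑ x ∈ DD T (Q ^ (c + 3)), ENNReal.ofReal (EE T (Q ^ (c + 3)) (1 + cM + cV) x) *
        volume (Tgt T ((Q ^ (c + 3)) ^ (cM + cV)) (VV x.1) (2 ^ x.2.1) (dl (2 ^ x.2.1) x.2.2) s
          (pm p h) (pm p k)) := by
  rcases Set.eq_empty_or_nonempty (SS T Q c h k p s) with he | hne
  · rw [he]; simp
  obtain ⟨v, r1, r2, r3, r4, r5⟩ := sub_Src hT hQ h1 h2 h3 hne
  have hT0 : 0 < T := by linarith
  have hQ0 : 0 < Q := by linarith
  have hQ1 : 1 ≤ Q := by linarith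
  set q := Q ^ (c + 3) with hq
  have hQq : Q ≤ q := le_self_pow₀ hQ1 (by omega)
  have q1 : 1 ≤ q := hQ1.trans hQq
  have q0 : 0 < q := by linarith
  have V0 := VV_pos v 0
  have V1 := VV_pos v 1
  have hhT : ‖h‖ ≤ T := h2.trans hQT
  have V0T : VV v 0 ≤ T := r4.trans hhT
  -- the size of k
  have hk' : 1 ≤ ‖pm p k‖ := by rw [norm_pm]; exact hk
  obtain ⟨n, n1, n2⟩ := dyad hk'
  obtain ⟨a, ha⟩ := hne
  obtain ⟨b1, b2, b3, b4, b5⟩ := r3 ha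
  have kap1 := kap_le_one hT0 V0T
  have kpr1 := kpr_le_one hT V0T
  have hkV : ‖pm p k‖ ≤ q ^ cV * VV v 0 := by
    refine hKV a.1 (VV v) s a.2 (pm p h) (pm p k) b1 r1 r2 b4
      (BD_mono hT0.le ?_ ?_ (fun l => le_rfl) b5)
    · exact mul_le_of_le_one_right q0.le kap1
    · exact mul_le_of_le_one_right q0.le kpr1
  have qV1 : 1 ≤ q ^ cV := one_le_pow₀ q1
  have qM1 : 1 ≤ q ^ cM := one_le_pow₀ q1
  set κ := min n (v 0) with hκ
  have κ1 : (2 : ℝ) ^ κ ≤ 2 ^ n := pow_le_pow_right₀ (by norm_num) (min_le_left _ _)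
  have κ2 : (2 : ℝ) ^ κ ≤ VV v 0 := pow_le_pow_right₀ (by norm_num) (min_le_right _ _)
  have κ3 : (2 : ℝ) ^ n ≤ q ^ cV * 2 ^ κ := by
    rcases le_total n (v 0) with hh | hh
    · rw [hκ, min_eq_left hh]
      exact le_mul_of_one_le_left (by positivity) qV1
    · rw [hκ, min_eq_right hh]
      exact n1.trans hkV
  have κ0 : (1 : ℝ) ≤ 2 ^ κ := one_le_pow₀ (by norm_num)
  have n0 : (1 : ℝ) ≤ 2 ^ n := one_le_pow₀ (by norm_num)
  have M := hMAT (VV v) s (pm p h) (pm p k) (2 ^ n) r1 r2 n0 n1 n2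
  -- termwise
  have term : ∀ j : ℕ, ENNReal.ofReal (gain T (VV v) (2 ^ n) (dl (2 ^ n) j)) *
      volume (Tgt T (q ^ cM) (VV v) (2 ^ n) (dl (2 ^ n) j) s (pm p h) (pm p k)) ≤
      ENNReal.ofReal (q ^ cV * gain T (VV v) (2 ^ κ) (dl (2 ^ κ) j)) *
      volume (Tgt T (q ^ (cM + cV)) (VV v) (2 ^ κ) (dl (2 ^ κ) j) s (pm p h) (pm p k)) := by
    intro j
    obtain ⟨d1, d2, d3, d4⟩ := dl_change κ0 κ1 j
    refine mul_le_mul' (ENNReal.ofReal_le_ofReal ?_) (measure_mono ?_)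
    · exact gain_change hT0 V0 (VV_pos v 2).le (by positivity) κ1 κ3 (dl_pos j) d4 qV1
    · refine Tgt_mono hT0.le qM1 ?_ (fun l => (VV_pos v l).le) (by positivity) κ1 ?_
        (dl_pos j).le d1
      · exact pow_le_pow_right₀ q1 (by omega)
      · rw [pow_add, mul_assoc]
        exact mul_le_mul_of_nonneg_left κ3 (by positivity)
  have inj : Function.Injective fun j : ℕ => (v, κ, j) := by
    intro a b hab
    simpa using hab
  have sub : (Finset.range ⌈3 * q⌉₊).image (fun j : ℕ => (v, κ, j)) ⊆ DD T q := by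
    intro x hx
    rw [Finset.mem_image] at hx
    obtain ⟨j, hj, rfl⟩ := hx
    unfold DD
    have vl : ∀ l, v l < ⌈3 * q⌉₊ := by
      intro l
      refine exp_lt (hl.trans hQq) q1 (le_trans ?_ V0T)
      fin_cases l
      · exact le_rfl
      · exact r1.2.2.1
      · exact r1.2.1.trans r1.2.2.1
    simp only [Finset.mem_filter, Finset.mem_product, Fintype.mem_piFinset]
    exact ⟨⟨fun l => Finset.mem_range.2 (vl l),
      Finset.mem_range.2 (lt_of_le_of_lt (min_le_right _ _) (vl 0)), hj⟩, r1, κ2⟩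
  calc ENNReal.ofReal (Q ^ c * T ^ 4 / (‖h‖ * V2r h)) * volume (SS T Q c h k p s)
      ≤ ENNReal.ofReal (q * (T ^ 4 / (VV v 0 * VV v 1))) *
        (ENNReal.ofReal (q ^ cM) * ∑ j ∈ Finset.range ⌈3 * q⌉₊,
          ENNReal.ofReal (q ^ cV * gain T (VV v) (2 ^ κ) (dl (2 ^ κ) j)) *
          volume (Tgt T (q ^ (cM + cV)) (VV v) (2 ^ κ) (dl (2 ^ κ) j) s (pm p h) (pm p k))) := by
        refine mul_le_mul' (ENNReal.ofReal_le_ofReal r5) ?_
        refine (measure_mono r3).trans (M.trans ?_)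
        exact mul_le_mul' le_rfl (Finset.sum_le_sum fun j _ => term j)
    _ = ∑ j ∈ Finset.range ⌈3 * q⌉₊, ENNReal.ofReal (EE T q (1 + cM + cV) (v, κ, j)) *
          volume (Tgt T (q ^ (cM + cV)) (VV v) (2 ^ κ) (dl (2 ^ κ) j) s (pm p h) (pm p k)) := by
        rw [← mul_assoc, ← ENNReal.ofReal_mul (by positivity), Finset.mul_sum]
        refine Finset.sum_congr rfl fun j _ => ?_
        rw [← mul_assoc, ← ENNReal.ofReal_mul (by positivity)]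
        congr 2
        unfold EE
        ring
    _ = ∑ x ∈ (Finset.range ⌈3 * q⌉₊).image (fun j : ℕ => (v, κ, j)),
          ENNReal.ofReal (EE T q (1 + cM + cV) x) *
          volume (Tgt T (q ^ (cM + cV)) (VV x.1) (2 ^ x.2.1) (dl (2 ^ x.2.1) x.2.2) s
            (pm p h) (pm p k)) := by
        rw [Finset.sum_image fun a _ b _ hab => inj hab]
    _ ≤ _ := Finset.sum_le_sum_of_subset sub

end Pool.Agent.F5H.BC.H90
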