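import Pool.Agent.Helper90_F5H.AsmC

/-!
MP_f5cbfa_nt, squad F5H, row C_ASM, fourth part: the sums over `h` and `k`.
-/

set_option autoImplicit false

open MeasureTheory Complex ComplexConjugate
open scoped ENNReal

namespace Pool.Agent.F5H.BC.H90

open Pool.Agent.BTL Pool.Agent.F5S Pool.Agent.F5H Pool.Agent.F5H.BC

theorem norm_rc (x : ℤ × ℤ) : ‖rc x‖ = ‖x‖ := by
  unfold rc
  rw [Prod.norm_def, Prod.norm_def, Real.norm_eq_abs, Real.norm_eq_abs, Int.norm_eq_abs,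
    Int.norm_eq_abs]

theorem one_le_norm {x : ℤ × ℤ} (hx : x ≠ 0) : 1 ≤ ‖x‖ := by
  rw [Prod.norm_def, Int.norm_eq_abs, Int.norm_eq_abs]
  by_contra h
  push Not at h
  rw [max_lt_iff] at h
  refine hx ?_
  have e1 : x.1 = 0 := by
    have : |x.1| < 1 := by exact_mod_cast h.1
    exact Int.abs_lt_one_iff.1 this
  have e2 : x.2 = 0 := by
    have : |x.2| < 1 := by exact_mod_cast h.2
    exact Int.abs_lt_one_iff.1 this
  exact Prod.ext e1 e2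

theorem V2r_r3 (h : Z6) : V2r (r3 h) = V2 h := by
  unfold V2r V2 r3
  simp only [norm_rc]

theorem one_le_cp {h : Z6} (hh : NZ h) (l : Fin 3) : 1 ≤ ‖cp (r3 h) l‖ := by
  fin_cases l
  · show 1 ≤ ‖rc h.1‖
    rw [norm_rc]; exact one_le_norm hh.1
  · show 1 ≤ ‖rc h.2.1‖
    rw [norm_rc]; exact one_le_norm hh.2.1
  · show 1 ≤ ‖rc h.2.2‖
    rw [norm_rc]; exact one_le_norm hh.2.2

theorem one_le_r3 {k : Z6} (hk : k ≠ 0) : 1 ≤ ‖r3 k‖ := by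
  have : k.1 ≠ 0 ∨ k.2.1 ≠ 0 ∨ k.2.2 ≠ 0 := by
    by_contra h
    push Not at h
    exact hk (Prod.ext h.1 (Prod.ext h.2.1 h.2.2))
  rcases this with h | h | h
  · refine le_trans ?_ (norm_cp_le (r3 k) 0)
    show 1 ≤ ‖rc k.1‖
    rw [norm_rc]; exact one_le_norm h
  · refine le_trans ?_ (norm_cp_le (r3 k) 1)
    show 1 ≤ ‖rc k.2.1‖
    rw [norm_rc]; exact one_le_norm h
  · refine le_trans ?_ (norm_cp_le (r3 k) 2)
    show 1 ≤ ‖rc k.2.2‖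
    rw [norm_rc]; exact one_le_norm h

/-- exchange of the sums -/
theorem swap {ι : Type} (I : Finset ι) (H : Finset Z6) (a : Z6 → Z6 → ℝ≥0∞) (e : ι → ℝ≥0∞)
    (b : ι → Z6 → Z6 → ℝ≥0∞) (B : ι → ℝ≥0∞)
    (h1 : ∀ h ∈ H, ∀ k, k ≠ 0 → a h k ≤ ∑ i ∈ I, e i * b i h k)
    (h2 : ∀ i ∈ I, e i * ∑ h ∈ H, ∑' k : Z6, (if k = 0 then 0 else b i h k) ≤ B i) :
    ∑ h ∈ H, ∑' k : Z6, (if k = 0 then 0 else a h k) ≤ ∑ i ∈ I, B i := by
  calc ∑ h ∈ H, ∑' k : Z6, (if k = 0 then 0 else a h k)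
      ≤ ∑ h ∈ H, ∑' k : Z6, ∑ i ∈ I, e i * (if k = 0 then 0 else b i h k) := by
        refine Finset.sum_le_sum fun h hh => ENNReal.tsum_le_tsum fun k => ?_
        by_cases hk : k = 0
        · simp [hk]
        · simp only [if_neg hk]
          exact h1 h hh k hk
    _ = ∑ i ∈ I, e i * ∑ h ∈ H, ∑' k : Z6, (if k = 0 then 0 else b i h k) := by
        have e1 : ∀ h, ∑' k : Z6, ∑ i ∈ I, e i * (if k = 0 then 0 else b i h k) =
            ∑ i ∈ I, e i * ∑' k : Z6, (if k = 0 then 0 else b i h k) := by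
          intro h
          rw [Summable.tsum_finsetSum fun i _ => ENNReal.summable]
          exact Finset.sum_congr rfl fun i _ => ENNReal.tsum_mul_left
        simp only [e1]
        rw [Finset.sum_comm]
        exact Finset.sum_congr rfl fun i _ => (Finset.mul_sum _ _ _).symm
    _ ≤ _ := Finset.sum_le_sum h2

theorem card_DD {T Q : ℝ} (hQ : 1 ≤ Q) : ((DD T Q).card : ℝ) ≤ (4 * Q) ^ 5 := by
  classical
  have h1 : (DD T Q).card ≤ ⌈3 * Q⌉₊ ^ 5 := by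
    unfold DD
    refine (Finset.card_filter_le _ _).trans ?_
    rw [Finset.card_product, Finset.card_product, Fintype.card_piFinset]
    simp only [Finset.card_range, Finset.prod_const, Finset.card_univ, Fintype.card_fin]
    exact le_of_eq (by ring)
  have h2 : ((⌈3 * Q⌉₊ : ℕ) : ℝ) ≤ 4 * Q := by
    have := (Nat.ceil_lt_add_one (by linarith : (0 : ℝ) ≤ 3 * Q)).le
    linarith
  calc ((DD T Q).card : ℝ) ≤ ((⌈3 * Q⌉₊ ^ 5 : ℕ) : ℝ) := by exact_mod_cast h1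
    _ = ((⌈3 * Q⌉₊ : ℕ) : ℝ) ^ 5 := by push_cast; ring
    _ ≤ _ := pow_le_pow_left₀ (Nat.cast_nonneg _) h2 5

/-- the total for given parameters; `B` bounds every tuple -/
theorem total {T Q B : ℝ} {c cV cM : ℕ}
    (hT : 1 ≤ T) (hQ : 8 ≤ Q) (hl : Real.log T ≤ Q) (hQT : Q * Lx T ≤ T)
    (H : Finset Z6)
    (hH : ∀ h ∈ H, NZ h ∧ T ^ (677 / 2000 : ℝ) < V2 h ∧ ‖r3 h‖ ≤ Q * Lx T)
    (hF : ∀ h k : R6, (∀ l, 1 ≤ ‖cp h l‖) → ‖h‖ ≤ Q * Lx T → T ^ (677 / 2000 : ℝ) < V2r h →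
      volume {m : R6 | Reg Q T h m ∧ NB Q T h m k} ≤
        ENNReal.ofReal (Q ^ c * T ^ 4 / (‖h‖ * V2r h)) *
        ∑ p : Equiv.Perm (Fin 3), ∑ s : Bool × Bool, volume (SS T Q c h k p s))
    (hKV : ∀ (A : ℝ × ℝ × ℝ) (V : Fin 3 → ℝ) (s : Bool × Bool) (th : ℝ) (h k : R6),
      A ∈ KM (Q ^ (c + 3)) → Rg T (Q ^ (c + 3)) V →
      Sz (Q ^ (c + 3)) V h → Gd (Q ^ (c + 3)) T (hG A h) (sg s) th →
      BD T (Q ^ (c + 3)) (Q ^ (c + 3)) (fun l => Q ^ (c + 3) * V l) (hG A h) (sg s) th (kG A k) →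
      ‖k‖ ≤ (Q ^ (c + 3)) ^ cV * V 0)
    (hMAT : ∀ (V : Fin 3 → ℝ) (s : Bool × Bool) (h k : R6) (k0 : ℝ), Rg T (Q ^ (c + 3)) V →
      Sz (Q ^ (c + 3)) V h → 1 ≤ k0 → k0 ≤ ‖k‖ → ‖k‖ ≤ 2 * k0 →
      volume (Src T (Q ^ (c + 3)) V s h k) ≤ ENNReal.ofReal ((Q ^ (c + 3)) ^ cM) *
        ∑ j ∈ Finset.range ⌈3 * Q ^ (c + 3)⌉₊, ENNReal.ofReal (gain T V k0 (dl k0 j)) *
          volume (Tgt T ((Q ^ (c + 3)) ^ cM) V k0 (dl k0 j) s h k))
    (hB : ∀ x ∈ DD T (Q ^ (c + 3)), ∀ (p : Equiv.Perm (Fin 3)) (s : Bool × Bool),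
      ENNReal.ofReal (EE T (Q ^ (c + 3)) (1 + cM + cV) x) *
        ∑ h ∈ H, ∑' k : Z6, (if k = 0 then 0 else
          volume (Tgt T ((Q ^ (c + 3)) ^ (cM + cV)) (VV x.1) (2 ^ x.2.1) (dl (2 ^ x.2.1) x.2.2) s
            (pm p (r3 h)) (pm p (r3 k)))) ≤ ENNReal.ofReal B) (hB0 : 0 ≤ B) :
    ∑ h ∈ H, ∑' k : Z6, (if k = 0 then 0 else
      volume {m : R6 | Reg Q T (r3 h) m ∧ NB Q T (r3 h) m (r3 k)}) ≤
    ENNReal.ofReal (24 * (4 * Q ^ (c + 3)) ^ 5 * B) := by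
  have hQ1 : 1 ≤ Q := by linarith
  have q1 : 1 ≤ Q ^ (c + 3) := one_le_pow₀ hQ1
  refine (swap ((Finset.univ : Finset (Equiv.Perm (Fin 3))) ×ˢ
    ((Finset.univ : Finset (Bool × Bool)) ×ˢ DD T (Q ^ (c + 3)))) H _
    (fun i => ENNReal.ofReal (EE T (Q ^ (c + 3)) (1 + cM + cV) i.2.2))
    (fun i h k => volume (Tgt T ((Q ^ (c + 3)) ^ (cM + cV)) (VV i.2.2.1) (2 ^ i.2.2.2.1)
      (dl (2 ^ i.2.2.2.1) i.2.2.2.2) i.2.1 (pm i.1 (r3 h)) (pm i.1 (r3 k))))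
    (fun _ => ENNReal.ofReal B) ?_ ?_).trans ?_
  · intro h hh k hk
    obtain ⟨a1, a2, a3⟩ := hH h hh
    have a4 : T ^ (677 / 2000 : ℝ) < V2r (r3 h) := by rw [V2r_r3]; exact a2
    refine (hF (r3 h) (r3 k) (one_le_cp a1) a3 a4).trans ?_
    rw [Finset.mul_sum, Finset.sum_product]
    refine Finset.sum_le_sum fun p _ => ?_
    rw [Finset.mul_sum, Finset.sum_product]
    refine Finset.sum_le_sum fun s _ => ?_
    exact cell hT hQ hl hQT (one_le_cp a1) a3 a4 (one_le_r3 hk) hKV hMAT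
  · intro i hi
    rw [Finset.mem_product, Finset.mem_product] at hi
    exact hB i.2.2 hi.2.2 i.1 i.2.1
  · rw [Finset.sum_const, Finset.card_product, Finset.card_product, Finset.card_univ,
      Finset.card_univ, Fintype.card_perm, nsmul_eq_mul]
    have e1 : (((Fintype.card (Fin 3)).factorial * (Fintype.card (Bool × Bool) *
        (DD T (Q ^ (c + 3))).card) : ℕ) : ℝ≥0∞) =
        ENNReal.ofReal (24 * ((DD T (Q ^ (c + 3))).card : ℝ)) := by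
      rw [ENNReal.ofReal_mul (by norm_num), ENNReal.ofReal_natCast]
      simp [Nat.factorial]
      ring
    rw [e1, ← ENNReal.ofReal_mul (by positivity)]
    refine ENNReal.ofReal_le_ofReal ?_
    refine mul_le_mul_of_nonneg_right ?_ hB0
    exact mul_le_mul_of_nonneg_left (card_DD q1) (by norm_num)

end Pool.Agent.F5H.BC.H90
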