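import Pool.Agent.F5H.StmtsG
import Pool.Agent.Helper90_F5H.AsmA

/-!
MP_f5cbfa_nt, squad F5H, row C_I6, first part: periodicity, the local estimate.
-/

set_option autoImplicit false

open MeasureTheory Complex ComplexConjugate
open scoped ENNReal

namespace Pool.Agent.F5H.BC.H90

open Pool.Agent.BTL Pool.Agent.F5S Pool.Agent.F5H Pool.Agent.F5H.BC Pool.Agent.F5.H58

theorem exp_per (th : ℝ) :
    cexp (((th + 2 * Real.pi : ℝ) : ℂ) * I) = cexp ((th : ℂ) * I) := by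
  push_cast
  rw [add_mul, Complex.exp_add, Complex.exp_two_pi_mul_I, mul_one]

theorem wG_per (T : ℝ) (H : Fin 3 → ℂ) (ep : Fin 3 → ℝ) (th : ℝ) (l : Fin 3) :
    wG T H ep (th + 2 * Real.pi) l = wG T H ep th l := by
  unfold wG
  rw [exp_per]

theorem mG_per (T : ℝ) (H : Fin 3 → ℂ) (ep : Fin 3 → ℝ) (th : ℝ) (l : Fin 3) :
    mG T H ep (th + 2 * Real.pi) l = mG T H ep th l := by
  unfold mG; rw [wG_per]

theorem tG_per (T : ℝ) (H : Fin 3 → ℂ) (ep : Fin 3 → ℝ) (th : ℝ) (l : Fin 3) :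
    tG T H ep (th + 2 * Real.pi) l = tG T H ep th l := by
  unfold tG; rw [wG_per]

theorem nG_per (T : ℝ) (H : Fin 3 → ℂ) (ep : Fin 3 → ℝ) (th : ℝ) (l : Fin 3) :
    nG T H ep (th + 2 * Real.pi) l = nG T H ep th l := by
  unfold nG; rw [wG_per]

theorem muG_per (T : ℝ) (H : Fin 3 → ℂ) (ep : Fin 3 → ℝ) (th : ℝ) (B : ℝ × ℝ × ℝ) (l : Fin 3) :
    muG T H ep (th + 2 * Real.pi) B l = muG T H ep th B l := by
  unfold muG; rw [mG_per]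

theorem GG_per (T : ℝ) (H : Fin 3 → ℂ) (ep : Fin 3 → ℝ) (th : ℝ) (B : ℝ × ℝ × ℝ) (y : ℝ) :
    GG T H ep (th + 2 * Real.pi) B y = GG T H ep th B y := by
  unfold GG; rw [muG_per, tG_per, nG_per, mG_per]

theorem yG_per (T : ℝ) (H : Fin 3 → ℂ) (ep : Fin 3 → ℝ) (th : ℝ) (B : ℝ × ℝ × ℝ) (y : ℝ)
    (l : Fin 3) : yG T H ep (th + 2 * Real.pi) B y l = yG T H ep th B y l := by
  unfold yG; rw [GG_per, mG_per, muG_per, tG_per, nG_per]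

theorem tv_per (T : ℝ) (H : Fin 3 → ℂ) (ep : Fin 3 → ℝ) (th : ℝ) (B : ℝ × ℝ × ℝ) (y : ℝ) :
    tv T H ep (th + 2 * Real.pi) B y = tv T H ep th B y := by
  funext l
  unfold tv; rw [muG_per, yG_per, wG_per]

theorem BD_per (T c₁ c₂ : ℝ) (b : Fin 3 → ℝ) (H : Fin 3 → ℂ) (ep : Fin 3 → ℝ) (th : ℝ)
    (K : Fin 3 → ℂ) : BD T c₁ c₂ b H ep (th + 2 * Real.pi) K ↔ BD T c₁ c₂ b H ep th K := by
  unfold BD
  simp only [tv_per, wG_per]

theorem Gd_per (Q T : ℝ) (H : Fin 3 → ℂ) (ep : Fin 3 → ℝ) (th : ℝ) :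
    Gd Q T H ep (th + 2 * Real.pi) ↔ Gd Q T H ep th := by
  unfold Gd
  simp only [wG_per, exp_per]

theorem kph_per (T : ℝ) (H : Fin 3 → ℂ) (ep : Fin 3 → ℝ) (th : ℝ) (K : Fin 3 → ℂ) :
    kph T H ep (th + 2 * Real.pi) K = kph T H ep th K := by
  unfold kph
  simp only [wG_per, tG_per, nG_per]

theorem TgP_per (T Q : ℝ) (V : Fin 3 → ℝ) (k0 del : ℝ) (s : Bool × Bool) (h k : R6)
    (A : ℝ × ℝ × ℝ) (th : ℝ) :
    (A, th) ∈ TgP T Q V k0 del s h k ↔ (A, th + 2 * Real.pi) ∈ TgP T Q V k0 del s h k := by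
  unfold TgP
  simp only [Set.mem_ofPred_eq, Gd_per, BD_per, kph_per]

theorem TgP_Ioc (T Q : ℝ) (V : Fin 3 → ℝ) (k0 del : ℝ) (s : Bool × Bool) (h k : R6) :
    TgP T Q V k0 del s h k ∩ {a | a.2 ∈ Set.Ioc (-Real.pi) Real.pi} ⊆
      Tgt T Q V k0 del s h k := by
  rintro a ⟨⟨h1, h2, h3, h4, h5, h6⟩, h7⟩
  exact ⟨h1, h7, h2, h3, h4, h5, h6⟩

/-- nearby forms and directions are in the chart -/
def NearPsi : Prop := ∃ C : ℝ, 1 ≤ C ∧ ∀ (A A' : ℝ × ℝ × ℝ) (Q t : ℝ), 1000 ≤ Q → A ∈ KM Q →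
  ‖A' - A‖ ≤ 1 / (C * Q ^ 54) → |t| ≤ Real.pi →
  ∃ w : ℝ × (Fin 3 → ℝ), Psi A w = (A', t) ∧ |w.1 - 1| ≤ 1 / Q ^ 50 ∧ ‖mw w‖ ≤ 1 / Q ^ 50 ∧
    |w.2 2| ≤ 4

/-- the set of the chart points -/
def Sj (T Q : ℝ) (V : Fin 3 → ℝ) (k0 : ℝ) (s : Bool × Bool) (h k : R6) (A : ℝ × ℝ × ℝ) (j : ℕ) :
    Set (ℝ × (Fin 3 → ℝ)) :=
  {w | (sF T A h * w.1, w.2) ∈ Bj T Q V k0 s h k A j ∩ Ew T Q V s h k A}

/-- the enlarged set of the chart points -/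
def Sj' (C T Q : ℝ) (V : Fin 3 → ℝ) (k0 : ℝ) (s : Bool × Bool) (h k : R6) (A : ℝ × ℝ × ℝ)
    (j : ℕ) : Set (ℝ × (Fin 3 → ℝ)) :=
  {w | (sF T A h * w.1, w.2) ∈ Bj' C T Q V k0 s h k A j ∩ Ew' T Q V s h k A}

theorem Sj_sub {T Q : ℝ} {V : Fin 3 → ℝ} {k0 : ℝ} {s : Bool × Bool} {h k : R6}
    {A : ℝ × ℝ × ℝ} (X : Ctr T Q V k0 s h k A) (j : ℕ) : Sj T Q V k0 s h k A j ⊆ PsR := by
  rintro w ⟨-, ⟨⟨h1, h2, h3, h4, h5, -⟩, -⟩⟩
  have hS := X.S0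
  have hQ : 1 / Q ^ 50 ≤ 1 / 16 := by
    refine one_div_le_one_div_of_le (by norm_num) ?_
    calc (16 : ℝ) ≤ Q ^ 1 := by rw [pow_one]; linarith [X.hQ]
      _ ≤ Q ^ 50 := pow_le_pow_right₀ X.Q1 (by norm_num)
  have g1 : 3 / 4 * sF T A h ≤ sF T A h * w.1 := h1
  have g2 : sF T A h * w.1 ≤ 5 / 4 * sF T A h := h2
  have g3 : |w.2 0| ≤ 1 / Q ^ 50 := h3
  have g4 : |w.2 1| ≤ 1 / Q ^ 50 := h4
  have g5 : |w.2 2| ≤ 4 := h5
  refine ⟨?_, ?_, g3.trans hQ, g4.trans hQ, g5.trans (by norm_num)⟩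
  · by_contra hc
    push Not at hc
    nlinarith
  · by_contra hc
    push Not at hc
    nlinarith

theorem Sj'_sub {C T Q : ℝ} {V : Fin 3 → ℝ} {k0 : ℝ} {s : Bool × Bool} {h k : R6}
    {A : ℝ × ℝ × ℝ} (X : Ctr T Q V k0 s h k A) (j : ℕ) :
    Sj' C T Q V k0 s h k A j ⊆ PsR := by
  rintro w ⟨-, h1, h2, h3, h4, h5, -⟩
  have hS := X.S0
  have g1 : sF T A h / 2 ≤ sF T A h * w.1 := h1
  have g2 : sF T A h * w.1 ≤ 2 * sF T A h := h2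
  refine ⟨?_, ?_, h3, h4, h5⟩
  · by_contra hc
    push Not at hc
    nlinarith
  · by_contra hc
    push Not at hc
    nlinarith

/-- one class -/
theorem classj (hSCL : SCLStmt) (hPER : PERStmt) {C T Q K : ℝ} {V : Fin 3 → ℝ} {k0 : ℝ}
    {s : Bool × Bool} {h k : R6} {A : ℝ × ℝ × ℝ} (X : Ctr T Q V k0 s h k A) (j : ℕ)
    (hK : 0 ≤ K)
    (hCOV : ∀ S ⊆ PsR, volume (Psi A '' S) ≤ ENNReal.ofReal K * volume S ∧
      volume S ≤ ENNReal.ofReal K * volume (Psi A '' S))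
    (h4 : volume (Bj T Q V k0 s h k A j ∩ Ew T Q V s h k A) ≤
      ENNReal.ofReal (Q ^ 400 * gain T V k0 (dl k0 j)) *
        volume (Bj' C T Q V k0 s h k A j ∩ Ew' T Q V s h k A))
    (h2 : ∀ w : ℝ × (Fin 3 → ℝ),
      (sF T A h * w.1, w.2) ∈ Bj' C T Q V k0 s h k A j ∩ Ew' T Q V s h k A →
      Psi A w ∈ TgP T (Q ^ 1000) V k0 (dl k0 j) s h k ∧ |(Psi A w).2| ≤ 6) :
    volume (Psi A '' Sj T Q V k0 s h k A j) ≤
      ENNReal.ofReal (3 * K ^ 2 * Q ^ 400 * gain T V k0 (dl k0 j)) *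
        volume (Tgt T (Q ^ 1000) V k0 (dl k0 j) s h k) := by
  have hS := X.S0
  have hgain := gain_nonneg T V k0 (dl k0 j) X.T0.le X.k00.le
  have hQ0 := X.Q0
  have a1 := (hCOV _ (Sj_sub X j)).1
  have a2 := (hCOV _ (Sj'_sub (C := C) X j)).2
  have b1 := hSCL _ hS (Bj T Q V k0 s h k A j ∩ Ew T Q V s h k A)
  have b2 := hSCL _ hS (Bj' C T Q V k0 s h k A j ∩ Ew' T Q V s h k A)
  have b3 : volume (Sj T Q V k0 s h k A j) ≤
      ENNReal.ofReal (Q ^ 400 * gain T V k0 (dl k0 j)) * volume (Sj' C T Q V k0 s h k A j) := by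
    have h5 : ENNReal.ofReal (sF T A h) * volume (Sj T Q V k0 s h k A j) ≤
        ENNReal.ofReal (sF T A h) * (ENNReal.ofReal (Q ^ 400 * gain T V k0 (dl k0 j)) *
          volume (Sj' C T Q V k0 s h k A j)) := by
      calc ENNReal.ofReal (sF T A h) * volume (Sj T Q V k0 s h k A j)
          = volume (Bj T Q V k0 s h k A j ∩ Ew T Q V s h k A) := b1.symm
        _ ≤ _ := h4
        _ = ENNReal.ofReal (Q ^ 400 * gain T V k0 (dl k0 j)) *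
            (ENNReal.ofReal (sF T A h) * volume (Sj' C T Q V k0 s h k A j)) := by
            rw [b2]; rfl
        _ = _ := by rw [mul_left_comm]
    have e0 : ENNReal.ofReal (sF T A h) ≠ 0 := (ENNReal.ofReal_pos.2 hS).ne'
    exact (ENNReal.mul_le_mul_iff_right e0 ENNReal.ofReal_ne_top).1 h5
  have c1 : Psi A '' Sj' C T Q V k0 s h k A j ⊆
      TgP T (Q ^ 1000) V k0 (dl k0 j) s h k ∩ {a | |a.2| ≤ 6} := by
    rintro a ⟨w, hw, rfl⟩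
    exact h2 w hw
  have c2 := hPER (TgP T (Q ^ 1000) V k0 (dl k0 j) s h k)
    (fun A' th => TgP_per T (Q ^ 1000) V k0 (dl k0 j) s h k A' th)
  have c3 := measure_mono (μ := volume) (TgP_Ioc T (Q ^ 1000) V k0 (dl k0 j) s h k)
  calc volume (Psi A '' Sj T Q V k0 s h k A j)
      ≤ ENNReal.ofReal K * volume (Sj T Q V k0 s h k A j) := a1
    _ ≤ ENNReal.ofReal K * (ENNReal.ofReal (Q ^ 400 * gain T V k0 (dl k0 j)) *
        volume (Sj' C T Q V k0 s h k A j)) := mul_le_mul' le_rfl b3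
    _ ≤ ENNReal.ofReal K * (ENNReal.ofReal (Q ^ 400 * gain T V k0 (dl k0 j)) *
        (ENNReal.ofReal K * (3 * volume (Tgt T (Q ^ 1000) V k0 (dl k0 j) s h k)))) := by
        refine mul_le_mul' le_rfl (mul_le_mul' le_rfl (a2.trans (mul_le_mul' le_rfl ?_)))
        exact (measure_mono c1).trans (c2.trans (mul_le_mul' le_rfl c3))
    _ = ENNReal.ofReal (3 * K ^ 2 * Q ^ 400 * gain T V k0 (dl k0 j)) *
        volume (Tgt T (Q ^ 1000) V k0 (dl k0 j) s h k) := by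
        have e3 : (3 : ℝ≥0∞) = ENNReal.ofReal 3 := by simp
        rw [e3, ← mul_assoc, ← mul_assoc, ← mul_assoc, ← ENNReal.ofReal_mul hK,
          ← ENNReal.ofReal_mul (by positivity), ← ENNReal.ofReal_mul (by positivity)]
        congr 2
        ring

end Pool.Agent.F5H.BC.H90
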